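import Pool.Agent.H21.LA.Tf

/-!
MP_8923e7_nt, project LA.  Pairs: Turan's theorem.
-/

namespace Pool.Agent.H21.LA

open Finset Pool.Agent.H21.QT

open Classical in
/-- if among any `t + 1` vertices two are related, then at least `k^2/(2t) - k/2` pairs are related -/
theorem turan_t (t k : ℕ) (ht : 1 ≤ t) (Q : Fin k → Fin k → Prop) (hQ : ∀ x y, Q x y → Q y x)
    (h5 : ∀ I : Finset (Fin k), I.card = t + 1 → ∃ x ∈ I, ∃ y ∈ I, x ≠ y ∧ Q x y) :
    (k : ℝ) ^ 2 / (2 * t) - k / 2 ≤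
      (((powersetCard 2 (univ : Finset (Fin k))).filter
        (fun B => ∃ x ∈ B, ∃ y ∈ B, x ≠ y ∧ Q x y)).card : ℝ) := by
  let G : SimpleGraph (Fin k) :=
    { Adj := fun x y => x ≠ y ∧ ¬ Q x y
      symm := ⟨fun x y h => ⟨h.1.symm, fun h' => h.2 (hQ y x h')⟩⟩
      loopless := ⟨fun x h => h.1 rfl⟩ }
  have hcf : G.CliqueFree (t + 1) := by
    intro s hs
    obtain ⟨x, hx, y, hy, hxy, hq⟩ := h5 s hs.card_eq
    have := hs.isClique hx hy hxy
    exact this.2 hq
  have h1 := hcf.card_edgeFinset_le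
  simp only [Fintype.card_fin] at h1
  rw [← SimpleGraph.card_edgeFinset_turanGraph] at h1
  have h2 := SimpleGraph.mul_card_edgeFinset_turanGraph_le (n := k) (r := t)
  have h3 : 2 * t * G.edgeFinset.card ≤ (t - 1) * k ^ 2 :=
    le_trans (Nat.mul_le_mul_left _ h1) h2
  set F := (powersetCard 2 (univ : Finset (Fin k))).filter
        (fun B => ∃ x ∈ B, ∃ y ∈ B, x ≠ y ∧ Q x y) with hF
  have h4 : powersetCard 2 (univ : Finset (Fin k)) ⊆ F ∪ G.edgeFinset.image (fun e => e.toFinset) := by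
    intro B hB
    rw [mem_union]
    by_cases hBF : B ∈ F
    · exact Or.inl hBF
    · right
      rw [hF, mem_filter] at hBF
      rw [mem_powersetCard, card_eq_two] at hB
      obtain ⟨-, x, y, hxy, rfl⟩ := hB
      rw [mem_image]
      refine ⟨s(x, y), ?_, ?_⟩
      · rw [SimpleGraph.mem_edgeFinset, SimpleGraph.mem_edgeSet]
        refine ⟨hxy, fun hq => hBF ⟨?_, x, by simp, y, by simp, hxy, hq⟩⟩
        rw [mem_powersetCard]
        exact ⟨subset_univ _, card_pair hxy⟩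
      · ext z
        simp
  have h5' := (card_le_card h4).trans ((card_union_le _ _).trans (Nat.add_le_add_left card_image_le _))
  rw [card_powersetCard, card_univ, Fintype.card_fin] at h5'
  have h6 : ((k.choose 2 : ℕ) : ℝ) = (k : ℝ) * (k - 1) / 2 := Nat.cast_choose_two ℝ k
  have h7 : ((k.choose 2 : ℕ) : ℝ) ≤ (F.card : ℝ) + G.edgeFinset.card := by exact_mod_cast h5'
  have ht1 : ((t - 1 : ℕ) : ℝ) = (t : ℝ) - 1 := by
    rw [Nat.cast_sub ht]
    norm_num
  have h8 : 2 * (t : ℝ) * (G.edgeFinset.card : ℝ) ≤ ((t : ℝ) - 1) * (k : ℝ) ^ 2 := by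
    rw [← ht1]
    exact_mod_cast h3
  have ht0 : (0 : ℝ) < t := by exact_mod_cast ht
  rw [h6] at h7
  have h9 : (G.edgeFinset.card : ℝ) ≤ (k : ℝ) ^ 2 / 2 - (k : ℝ) ^ 2 / (2 * t) := by
    have e : (k : ℝ) ^ 2 / 2 - (k : ℝ) ^ 2 / (2 * t) = ((t : ℝ) - 1) * (k : ℝ) ^ 2 / (2 * t) := by
      field_simp
    rw [e, le_div_iff₀ (by positivity)]
    linarith
  have h10 : (k : ℝ) * (k - 1) / 2 = (k : ℝ) ^ 2 / 2 - k / 2 := by ring
  linarith

open Classical in
/-- a cover of weight `> 1/(t+1)` has few independent indices -/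
theorem cov_ind {r k : ℕ} (lam : ℝ) (t : ℕ) (hlam : 1 < lam * (t + 1))
    (𝒞 : Fin r → Finset ℕ → Prop) (a : Fin k → ℕ) (h : Cov lam 𝒞 a) (I : Finset (Fin k))
    (hI : I.card = t + 1) : ∃ x ∈ I, ∃ y ∈ I, x ≠ y ∧
      ∃ (i : Fin r) (E : Finset (Fin k)), x ∈ E ∧ y ∈ E ∧ 𝒞 i (E.image a) := by
  obtain ⟨w, hw0, hw1, hcov, hrea⟩ := h
  by_contra hcon
  push Not at hcon
  have hsmall : ∀ i E, w i E * ((I.filter (fun j => j ∈ E)).card : ℝ) ≤ w i E := by
    intro i E
    rcases (hw0 i E).eq_or_lt with h0 | h0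
    · rw [← h0]; simp
    · apply mul_le_of_le_one_right (hw0 i E)
      have h1 : (I.filter (fun j => j ∈ E)).card ≤ 1 := by
        rw [card_le_one]
        intro x hx y hy
        rw [mem_filter] at hx hy
        by_contra hxy
        exact hcon x hx.1 y hy.1 hxy i E hx.2 hy.2 (hrea i E h0)
      exact_mod_cast h1
  have hdc : ∑ j ∈ I, ∑ i, ∑ E ∈ univ.filter (fun E => j ∈ E), w i E =
      ∑ i, ∑ E, w i E * ((I.filter (fun j => j ∈ E)).card : ℝ) := by
    rw [Finset.sum_comm]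
    refine Finset.sum_congr rfl fun i _ => ?_
    simp only [Finset.sum_filter]
    rw [Finset.sum_comm]
    refine Finset.sum_congr rfl fun E _ => ?_
    rw [← Finset.sum_filter, Finset.sum_const, nsmul_eq_mul, mul_comm]
  have h3 : lam * (t + 1) ≤ ∑ j ∈ I, ∑ i, ∑ E ∈ univ.filter (fun E => j ∈ E), w i E := by
    calc lam * (t + 1) = ∑ _j ∈ I, lam := by
          rw [Finset.sum_const, hI, nsmul_eq_mul]
          push_cast
          ring
      _ ≤ _ := Finset.sum_le_sum fun j _ => hcov j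
  have h4 : ∑ i, ∑ E, w i E * ((I.filter (fun j => j ∈ E)).card : ℝ) ≤ ∑ i, ∑ E, w i E :=
    Finset.sum_le_sum fun i _ => Finset.sum_le_sum fun E _ => hsmall i E
  rw [hdc] at h3
  linarith

open Classical in
/-- abstract form: many good pairs -/
theorem ab_pairs (r t : ℕ) (ht : 1 ≤ t) (lam ε : ℝ) (hlam : 1 < lam * (t + 1))
    (hε : 0 < ε) (hε1 : ε < 1) :
    ∃ k0 : ℕ, ∀ k : ℕ, k0 ≤ k → ∃ K : ℕ, ∀ H : Finset ℕ,
      K ≤ H.card → ∀ 𝒞 : Fin r → Finset ℕ → Prop,
      (∀ i (X Y : Finset ℕ), X ⊆ Y → 𝒞 i Y → 𝒞 i X) →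
      (((Fintype.piFinset (fun _ : Fin k => H)).filter
        (fun a => ¬ Cov lam 𝒞 a)).card : ℝ) ≤ ε / 8 * (H.card : ℝ) ^ k →
      (1 - ε) / t * (H.card.choose 2 : ℝ) ≤
        (((powersetCard 2 H).filter (fun B => ∃ i, 𝒞 i B)).card : ℝ) := by
  have htR : (1 : ℝ) ≤ t := by exact_mod_cast ht
  have ht0 : (0 : ℝ) < t := by linarith
  refine ⟨⌈4 * (t : ℝ) / ε⌉₊ + 2, fun k hk => ?_⟩
  have hkR : 4 * (t : ℝ) / ε ≤ (k : ℝ) - 1 := by
    have h1 : 4 * (t : ℝ) / ε ≤ ⌈4 * (t : ℝ) / ε⌉₊ := Nat.le_ceil _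
    have h2 : ((⌈4 * (t : ℝ) / ε⌉₊ + 2 : ℕ) : ℝ) ≤ k := by exact_mod_cast hk
    push_cast at h2
    linarith
  have hk2 : 2 ≤ k := by omega
  have hk2R : (2 : ℝ) ≤ k := by exact_mod_cast hk2
  refine ⟨⌈(k : ℝ) ^ 2 * 8 / ε⌉₊ + 1, fun H hH 𝒞 h𝒞 hbad => ?_⟩
  have hn1 : 1 ≤ H.card := by omega
  have hnk : (k : ℝ) ^ 2 ≤ ε / 8 * H.card := by
    have h1 : (k : ℝ) ^ 2 * 8 / ε ≤ H.card :=
      (Nat.le_ceil _).trans (by exact_mod_cast (by omega : ⌈(k : ℝ) ^ 2 * 8 / ε⌉₊ ≤ H.card))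
    rw [div_le_iff₀ hε] at h1
    linarith
  have h1 := gd_low (by omega : 1 ≤ k) H (fun a => Cov lam 𝒞 a) (ε / 8) hbad hn1 hnk
  obtain ⟨β, hβ⟩ : ∃ β : ℝ, β = (1 - ε / 4) / t := ⟨_, rfl⟩
  have hβ0 : 0 ≤ β := by
    rw [hβ]
    exact div_nonneg (by linarith) ht0.le
  have hβ1 : β * (k.choose 2 : ℝ) ≤ (k : ℝ) ^ 2 / (2 * t) - k / 2 := by
    rw [Nat.cast_choose_two, hβ]
    have e : (1 - ε / 4) / t * ((k : ℝ) * (k - 1) / 2) = (k / (2 * t)) * ((1 - ε / 4) * (k - 1)) := by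
      ring
    have e2 : (k : ℝ) ^ 2 / (2 * t) - k / 2 = (k / (2 * t)) * (k - t) := by
      field_simp
    rw [e, e2]
    apply mul_le_mul_of_nonneg_left _ (by positivity)
    rw [div_le_iff₀ hε] at hkR
    have h3 : (t : ℝ) ≤ ε / 4 * (k - 1) := by linarith
    linarith
  have h2 := transfer hk2 H hn1 ((powersetCard 2 H).filter (fun B => ∃ i, 𝒞 i B))
    (fun B hB => (mem_powersetCard.1 (mem_filter.1 hB).1).2)
    ((Fintype.piFinset (fun _ : Fin k => H)).filter
      (fun a => Cov lam 𝒞 a ∧ Function.Injective a))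
    (fun a ha => by
      rw [mem_filter, Fintype.mem_piFinset] at ha
      exact ⟨ha.2.2, ha.1⟩) β (2 * (ε / 8)) hβ0 (by linarith) (by
      intro a ha
      rw [mem_filter, Fintype.mem_piFinset] at ha
      obtain ⟨haH, hcov, hinj⟩ := ha
      refine hβ1.trans ((turan_t t k ht (fun x y => ∃ i, 𝒞 i {a x, a y}) ?_ ?_).trans ?_)
      · rintro x y ⟨i, hi⟩
        refine ⟨i, ?_⟩
        rw [pair_comm]
        exact hi
      · intro I hI
        obtain ⟨x, hx, y, hy, hxy, i, E, hxE, hyE, hE⟩ := cov_ind lam t hlam 𝒞 a hcov I hI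
        refine ⟨x, hx, y, hy, hxy, i, h𝒞 i _ _ ?_ hE⟩
        intro z hz
        rw [mem_insert, mem_singleton] at hz
        rcases hz with rfl | rfl
        · exact mem_image_of_mem _ hxE
        · exact mem_image_of_mem _ hyE
      · have h4 : (powersetCard 2 (univ : Finset (Fin k))).filter
            (fun B => ∃ x ∈ B, ∃ y ∈ B, x ≠ y ∧ ∃ i, 𝒞 i {a x, a y}) ⊆
            (powersetCard 2 (univ : Finset (Fin k))).filter
            (fun J => J.image a ∈ (powersetCard 2 H).filter (fun B => ∃ i, 𝒞 i B)) := by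
          intro B hB
          rw [mem_filter, mem_powersetCard] at hB
          obtain ⟨⟨hB1, hB2⟩, x, hx, y, hy, hxy, i, hi⟩ := hB
          have hBxy : B = {x, y} := by
            symm
            apply eq_of_subset_of_card_le
            · intro z hz
              rw [mem_insert, mem_singleton] at hz
              rcases hz with rfl | rfl
              · exact hx
              · exact hy
            · rw [hB2, card_pair hxy]
          rw [mem_filter, mem_powersetCard, mem_filter, mem_powersetCard]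
          refine ⟨⟨hB1, hB2⟩, ⟨⟨?_, ?_⟩, i, ?_⟩⟩
          · intro z hz
            rw [mem_image] at hz
            obtain ⟨j, _, rfl⟩ := hz
            exact haH j
          · rw [card_image_of_injective _ hinj, hB2]
          · rw [hBxy, image_insert, image_singleton]
            exact hi
        exact_mod_cast card_le_card h4) h1
  refine le_trans ?_ h2
  apply mul_le_mul_of_nonneg_right _ (Nat.cast_nonneg _)
  rw [hβ, ← mul_div_assoc]
  apply div_le_div_of_nonneg_right _ ht0.le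
  nlinarith

end Pool.Agent.H21.LA
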