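import Pool.Agent.H21.LA.En

/-!
MP_8923e7_nt, project LA.  Enrichment, second part.
-/

namespace Pool.Agent.H21.LA

open Finset Pool.Agent.H21.QT Pool.Agent.H21.CP

/-- the family: all `m`-subsets are shattered with companions -/
def Fam (Q : ℕ → Prop) {r : ℕ} (c : ℕ → Fin r) (H : Finset ℕ) (m l : ℕ) (ε : ℝ) (i : Fin r)
    (Y : Finset ℕ) : Prop := ∀ B ⊆ Y, B.card = m → Shat2 Q c i H l ε B

theorem fam_mono (Q : ℕ → Prop) {r : ℕ} (c : ℕ → Fin r) (H : Finset ℕ) (m l : ℕ) (ε : ℝ) (i : Fin r)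
    (X Y : Finset ℕ) (h : X ⊆ Y) (hY : Fam Q c H m l ε i Y) : Fam Q c H m l ε i X :=
  fun B hB hm => hY B (hB.trans h) hm

open Classical in
/-- number of the pairs which are bad for one colour and one set of indices -/
theorem eo_u3 {r : ℕ} (Q : ℕ → Prop) (c : ℕ → Fin r) (H : Finset ℕ) (k L l : ℕ) (ε : ℝ) (hε1 : ε ≤ 1)
    (i : Fin r) (J : Finset (Fin k)) :
    ((((Fintype.piFinset (fun _ : Fin k => H)) ×ˢ
      (Fintype.piFinset (fun _ : Fin L => Fintype.piFinset (fun _ : Fin l => H)))).filter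
      (fun p => ¬ Shat2 Q c i H l ε (J.image p.1) ∧ ∀ t, Function.Injective (p.2 t) ∧
        Real2 Q c i (J.image p.1) (univ.image (p.2 t)))).card : ℝ) ≤
      (H.card : ℝ) ^ k * ((1 - ε) * (H.card : ℝ) ^ l) ^ L := by
  set X := Fintype.piFinset (fun _ : Fin k => H) with hX
  obtain ⟨G, hG⟩ : ∃ G : (Fin k → ℕ) → Finset (Fin l → ℕ), ∀ a, G a =
    (Fintype.piFinset (fun _ : Fin l => H)).filter
      (fun b => Function.Injective b ∧ Real2 Q c i (J.image a) (univ.image b)) := ⟨_, fun _ => rfl⟩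
  have h1 : (X ×ˢ (Fintype.piFinset (fun _ : Fin L => Fintype.piFinset (fun _ : Fin l => H)))).filter
      (fun p => ¬ Shat2 Q c i H l ε (J.image p.1) ∧ ∀ t, Function.Injective (p.2 t) ∧
        Real2 Q c i (J.image p.1) (univ.image (p.2 t))) ⊆
      (X.filter (fun a => ¬ Shat2 Q c i H l ε (J.image a))).biUnion (fun a =>
        ({a} : Finset (Fin k → ℕ)) ×ˢ Fintype.piFinset (fun _ : Fin L => G a)) := by
    intro p hp
    rw [mem_filter, mem_product] at hp
    have h12 := hp.1.2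
    rw [Fintype.mem_piFinset] at h12
    rw [mem_biUnion]
    refine ⟨p.1, mem_filter.2 ⟨hp.1.1, hp.2.1⟩, ?_⟩
    rw [mem_product, mem_singleton, Fintype.mem_piFinset]
    refine ⟨rfl, fun t => ?_⟩
    rw [hG, mem_filter]
    exact ⟨h12 t, hp.2.2 t⟩
  have h2 := (card_le_card h1).trans card_biUnion_le
  have h3 : ∀ a ∈ X.filter (fun a => ¬ Shat2 Q c i H l ε (J.image a)),
      (((({a} : Finset (Fin k → ℕ)) ×ˢ Fintype.piFinset (fun _ : Fin L => G a)).card : ℕ) : ℝ) ≤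
        ((1 - ε) * (H.card : ℝ) ^ l) ^ L := by
    intro a ha
    rw [mem_filter] at ha
    have h4 := ha.2
    unfold Shat2 at h4
    push Not at h4
    have h5 := inj_count l H (fun B' => Real2 Q c i (J.image a) B') (1 - ε) h4.le (by linarith)
    rw [← hG a] at h5
    rw [card_product, card_singleton, one_mul, Fintype.card_piFinset, prod_const, card_univ,
      Fintype.card_fin]
    push_cast
    exact pow_le_pow_left₀ (Nat.cast_nonneg _) h5 _
  have h6 : (((X ×ˢ (Fintype.piFinset (fun _ : Fin L => Fintype.piFinset (fun _ : Fin l => H)))).filter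
      (fun p => ¬ Shat2 Q c i H l ε (J.image p.1) ∧ ∀ t, Function.Injective (p.2 t) ∧
        Real2 Q c i (J.image p.1) (univ.image (p.2 t)))).card : ℝ) ≤
      ∑ a ∈ X.filter (fun a => ¬ Shat2 Q c i H l ε (J.image a)),
        (((({a} : Finset (Fin k → ℕ)) ×ˢ Fintype.piFinset (fun _ : Fin L => G a)).card : ℕ) : ℝ) := by
    exact_mod_cast h2
  refine h6.trans ((sum_le_sum h3).trans ?_)
  rw [sum_const, nsmul_eq_mul]
  have h0 : 0 ≤ ((1 - ε) * (H.card : ℝ) ^ l) ^ L := by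
    apply pow_nonneg
    exact mul_nonneg (by linarith) (by positivity)
  apply mul_le_mul_of_nonneg_right _ h0
  have h7 : (X.filter (fun a => ¬ Shat2 Q c i H l ε (J.image a))).card ≤ H.card ^ k := by
    refine (card_filter_le _ _).trans (le_of_eq ?_)
    rw [hX, Fintype.card_piFinset, prod_const, card_univ, Fintype.card_fin]
  exact_mod_cast h7

open Classical in
theorem eo_cover {r : ℕ} (κ : ℝ) (Q : ℕ → Prop) (c : ℕ → Fin r) (H : Finset ℕ) (k k1 L l m : ℕ)
    (η ε : ℝ) (e : Fin k1 ≃ Fin k ⊕ (Fin L × Fin l)) (p : (Fin k → ℕ) × (Fin L → Fin l → ℕ))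
    (hinj : Function.Injective (Psi e p))
    (hq : QuarterQ κ Q η c (fun x => ((Psi e p x : ℕ) : ℤ)))
    (hno : ∀ (i : Fin r) (J : Finset (Fin k)), (∀ t, Function.Injective (p.2 t) ∧
        Real2 Q c i (J.image p.1) (univ.image (p.2 t))) → Shat2 Q c i H l ε (J.image p.1)) :
    Cov ((κ - η) / r) (Fam Q c H m l ε) p.1 := by
  obtain ⟨w, hw0, hw1, hw2, hw3⟩ := hq
  refine cov_pre _ e w hw0 hw1 hw2 _ _ ?_
  intro i E hE B hB hBm
  have hR := hw3 i E hE
  obtain ⟨J, hJ⟩ : ∃ J : Finset (Fin k), J =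
    (univ.filter (fun j : Fin k => e.symm (Sum.inl j) ∈ E)).filter (fun j => p.1 j ∈ B) := ⟨_, rfl⟩
  have hJB : J.image p.1 = B := by
    ext x
    rw [mem_image]
    constructor
    · rintro ⟨j, hj, rfl⟩
      rw [hJ, mem_filter] at hj
      exact hj.2
    · intro hx
      obtain ⟨j, hj, rfl⟩ := mem_image.1 (hB hx)
      exact ⟨j, by rw [hJ, mem_filter]; exact ⟨hj, hx⟩, rfl⟩
  rw [← hJB]
  apply hno
  intro t
  refine ⟨?_, real2_of_reaQ Q c e p hinj i E hR J ?_ t⟩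
  · intro s s' hs
    rw [← Psi_inr e p t s, ← Psi_inr e p t s'] at hs
    have h4 := e.symm.injective (hinj hs)
    simpa using h4
  · intro j hj
    rw [hJ, mem_filter, mem_filter] at hj
    exact hj.1.2

open Classical in
theorem eo_count {r : ℕ} (κ : ℝ) (Q : ℕ → Prop) (c : ℕ → Fin r) (H : Finset ℕ) (k k1 L l m : ℕ)
    (η ε U : ℝ) (e : Fin k1 ≃ Fin k ⊕ (Fin L × Fin l)) (hε1 : ε ≤ 1)
    (hH : ∀ p : ℕ, p.Prime → ∃ a : ℕ, ∀ h ∈ H, ¬ p ∣ a + h)
    (hU : (((Fintype.piFinset (fun _ : Fin k1 => H.image (fun n : ℕ => (n : ℤ)))).filter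
      (fun a => AdT a ∧ ¬ QuarterQ κ Q η c a)).card : ℝ) ≤ U) :
    (((Fintype.piFinset (fun _ : Fin k => H)).filter
      (fun a => ¬ Cov ((κ - η) / r) (Fam Q c H m l ε) a)).card : ℝ) * (H.card : ℝ) ^ (l * L) ≤
      U + (k1 : ℝ) ^ 2 * (H.card : ℝ) ^ (k1 - 1) +
        (r : ℝ) * 2 ^ k * ((H.card : ℝ) ^ k * ((1 - ε) * (H.card : ℝ) ^ l) ^ L) := by
  set X := Fintype.piFinset (fun _ : Fin k => H) with hX
  set Y := Fintype.piFinset (fun _ : Fin L => Fintype.piFinset (fun _ : Fin l => H)) with hY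
  set Bad := X.filter (fun a => ¬ Cov ((κ - η) / r) (Fam Q c H m l ε) a) with hBad
  have hYc : Y.card = H.card ^ (l * L) := by
    rw [hY, Fintype.card_piFinset, prod_const, card_univ, Fintype.card_fin, Fintype.card_piFinset,
      prod_const, card_univ, Fintype.card_fin, ← pow_mul]
  have hmem : ∀ p ∈ X ×ˢ Y, ∀ x, Psi e p x ∈ H := by
    intro p hp x
    rw [mem_product] at hp
    apply Psi_mem e p H
    · have := hp.1
      rw [hX, Fintype.mem_piFinset] at this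
      exact this
    · have := hp.2
      rw [hY, Fintype.mem_piFinset] at this
      intro t s
      have h2 := this t
      rw [Fintype.mem_piFinset] at h2
      exact h2 s
  set U1 := (X ×ˢ Y).filter (fun p => ¬ QuarterQ κ Q η c (fun x => ((Psi e p x : ℕ) : ℤ))) with hU1
  set U2 := (X ×ˢ Y).filter (fun p => ¬ Function.Injective (Psi e p)) with hU2
  have hcov : Bad ×ˢ Y ⊆ (U1 ∪ U2) ∪
      ((univ : Finset (Fin r)) ×ˢ (univ : Finset (Finset (Fin k)))).biUnion (fun q =>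
        (X ×ˢ Y).filter (fun p => ¬ Shat2 Q c q.1 H l ε (q.2.image p.1) ∧
          ∀ t, Function.Injective (p.2 t) ∧
            Real2 Q c q.1 (q.2.image p.1) (univ.image (p.2 t)))) := by
    intro p hp
    rw [mem_product, hBad, mem_filter] at hp
    have hpXY : p ∈ X ×ˢ Y := mem_product.2 ⟨hp.1.1, hp.2⟩
    by_cases h1 : QuarterQ κ Q η c (fun x => ((Psi e p x : ℕ) : ℤ))
    · by_cases h2 : Function.Injective (Psi e p)
      · apply mem_union_right
        by_contra hcon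
        apply hp.1.2
        refine eo_cover κ Q c H k k1 L l m η ε e p h2 h1 ?_
        intro i J hiJ
        by_contra h3
        apply hcon
        rw [mem_biUnion]
        exact ⟨(i, J), mem_product.2 ⟨mem_univ _, mem_univ _⟩, mem_filter.2 ⟨hpXY, h3, hiJ⟩⟩
      · exact mem_union_left _ (mem_union_right _ (mem_filter.2 ⟨hpXY, h2⟩))
    · exact mem_union_left _ (mem_union_left _ (mem_filter.2 ⟨hpXY, h1⟩))
  have hc1 : (U1.card : ℝ) ≤ U := by
    refine le_trans ?_ hU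
    rw [Nat.cast_le]
    apply card_le_card_of_injOn (fun p x => ((Psi e p x : ℕ) : ℤ))
    · intro p hp
      rw [mem_coe, hU1, mem_filter] at hp
      rw [mem_coe, mem_filter, Fintype.mem_piFinset]
      refine ⟨fun x => mem_image_of_mem _ (hmem p hp.1 x), ?_, hp.2⟩
      intro q hq
      obtain ⟨b, hb⟩ := hH q hq
      refine ⟨(b : ℤ), fun j hj => hb (Psi e p j) (hmem p hp.1 j) ?_⟩
      have h2 : (q : ℤ) ∣ ((b + Psi e p j : ℕ) : ℤ) := by
        push_cast
        exact hj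
      exact_mod_cast h2
    · intro p _ q _ hpq
      apply Psi_injective e
      funext x
      have h2 := congrFun hpq x
      simp only at h2
      exact_mod_cast h2
  have hc2 : (U2.card : ℝ) ≤ (k1 : ℝ) ^ 2 * (H.card : ℝ) ^ (k1 - 1) := by
    have h1 : U2.card ≤ ((Fintype.piFinset (fun _ : Fin k1 => H)).filter
        (fun a => ¬ Function.Injective a)).card := by
      apply card_le_card_of_injOn (fun p => Psi e p)
      · intro p hp
        rw [mem_coe, hU2, mem_filter] at hp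
        rw [mem_coe, mem_filter, Fintype.mem_piFinset]
        exact ⟨hmem p hp.1, hp.2⟩
      · intro p _ q _ hpq
        exact Psi_injective e hpq
    have h2 := h1.trans (tf_noninj H)
    exact_mod_cast h2
  have hcards : ((Bad ×ˢ Y).card : ℝ) ≤ (U1.card : ℝ) + (U2.card : ℝ) +
      ∑ q ∈ (univ : Finset (Fin r)) ×ˢ (univ : Finset (Finset (Fin k))),
        (((X ×ˢ Y).filter (fun p => ¬ Shat2 Q c q.1 H l ε (q.2.image p.1) ∧
          ∀ t, Function.Injective (p.2 t) ∧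
            Real2 Q c q.1 (q.2.image p.1) (univ.image (p.2 t)))).card : ℝ) := by
    have h1 := card_le_card hcov
    have h2 := h1.trans (card_union_le _ _)
    have h3 := h2.trans (Nat.add_le_add (card_union_le _ _) card_biUnion_le)
    exact_mod_cast h3
  have hsum := sum_le_sum (s := (univ : Finset (Fin r)) ×ˢ (univ : Finset (Finset (Fin k))))
    (fun q _ => eo_u3 Q c H k L l ε hε1 q.1 q.2)
  rw [sum_const, nsmul_eq_mul, card_product, card_univ, Fintype.card_fin, card_univ,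
    Fintype.card_finset, Fintype.card_fin] at hsum
  push_cast at hsum
  have hprod : ((Bad ×ˢ Y).card : ℝ) = (Bad.card : ℝ) * (H.card : ℝ) ^ (l * L) := by
    rw [card_product, hYc]
    push_cast
    ring
  rw [hprod] at hcards
  linarith

open Classical in
theorem en_cov (κ : ℝ) (Q : ℕ → Prop) (hQ : ∀ p : ℕ, p.Prime → Q p)
    (hM : ∀ k : ℕ, 1 ≤ k → MED κ Q k) (r m l k : ℕ) (hk : 1 ≤ k) (η ε θ : ℝ)
    (hη : 0 < η) (hε : 0 < ε) (hε1 : ε ≤ 1) (hθ : 0 < θ) :
    ∃ K : ℕ, ∀ H : Finset ℕ, (∀ p : ℕ, p.Prime → ∃ a : ℕ, ∀ h ∈ H, ¬ p ∣ a + h) →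
      K ≤ H.card → ∀ c : ℕ → Fin r,
      (((Fintype.piFinset (fun _ : Fin k => H)).filter
        (fun a => ¬ Cov ((κ - η) / r) (Fam Q c H m l ε) a)).card : ℝ) ≤
        θ * (H.card : ℝ) ^ k := by
  -- the number of companion blocks
  obtain ⟨L, hL⟩ : ∃ L : ℕ, (r : ℝ) * 2 ^ k * (1 - ε) ^ L ≤ θ / 2 := by
    have h1 : Filter.Tendsto (fun L : ℕ => (r : ℝ) * 2 ^ k * (1 - ε) ^ L) Filter.atTop
        (nhds ((r : ℝ) * 2 ^ k * 0)) :=
      (tendsto_pow_atTop_nhds_zero_of_lt_one (by linarith) (by linarith)).const_mul _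
    rw [mul_zero] at h1
    exact (h1.eventually (ge_mem_nhds (show (0 : ℝ) < θ / 2 by linarith))).exists
  obtain ⟨k1, hk1⟩ : ∃ k1 : ℕ, k1 = k + L * l := ⟨_, rfl⟩
  have e : Fin k1 ≃ Fin k ⊕ (Fin L × Fin l) := by
    apply Fintype.equivOfCardEq
    rw [Fintype.card_fin, Fintype.card_sum, Fintype.card_prod, Fintype.card_fin, Fintype.card_fin,
      Fintype.card_fin, hk1]
  have hk1' : 1 ≤ k1 := by omega
  obtain ⟨δ, C, hδ, hδ1, hC, hq⟩ := quarter_chen κ Q hQ r k1 hk1' (hM k1 hk1') η hη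
  obtain ⟨K, hK⟩ : ∃ K : ℕ, ∀ n : ℕ, K ≤ n →
      C * (n : ℝ) ^ (-δ) + (k1 : ℝ) ^ 2 * (n : ℝ)⁻¹ ≤ θ / 2 := by
    have h1 : Filter.Tendsto (fun n : ℕ => C * (n : ℝ) ^ (-δ) + (k1 : ℝ) ^ 2 * (n : ℝ)⁻¹)
        Filter.atTop (nhds (C * 0 + (k1 : ℝ) ^ 2 * 0)) := by
      refine Filter.Tendsto.add ?_ ?_
      · exact ((tendsto_rpow_neg_atTop hδ).comp tendsto_natCast_atTop_atTop).const_mul _
      · exact (tendsto_inv_atTop_nhds_zero_nat (𝕜 := ℝ)).const_mul _
    rw [mul_zero, mul_zero, add_zero] at h1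
    exact Filter.eventually_atTop.1 (h1.eventually (ge_mem_nhds (show (0 : ℝ) < θ / 2 by linarith)))
  refine ⟨max K 1, fun H hH hcard c => ?_⟩
  have hn1 : 1 ≤ H.card := (le_max_right _ _).trans hcard
  have hn0 : (0 : ℝ) < H.card := by exact_mod_cast hn1
  have h1 := hq c H.card (fun _ => H.image (fun n : ℕ => (n : ℤ))) hn1 (fun _ => card_image_le)
  have h2 := eo_count κ Q c H k k1 L l m η ε _ e hε1 hH h1
  have h3 := hK H.card ((le_max_left _ _).trans hcard)
  obtain ⟨n, hn⟩ : ∃ n : ℝ, n = (H.card : ℝ) := ⟨_, rfl⟩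
  obtain ⟨b, hb⟩ : ∃ b : ℝ, b = (((Fintype.piFinset (fun _ : Fin k => H)).filter
        (fun a => ¬ Cov ((κ - η) / r) (Fam Q c H m l ε) a)).card : ℝ) := ⟨_, rfl⟩
  rw [← hb, ← hn] at h2 ⊢
  rw [← hn] at h3 hn0
  have hpos : 0 < n ^ (l * L) := by positivity
  have e1 : n ^ ((k1 : ℝ) - δ) = n ^ (-δ) * (n ^ k * n ^ (l * L)) := by
    rw [← pow_add, ← Real.rpow_natCast n (k + l * L), ← Real.rpow_add hn0]
    congr 1
    rw [hk1]
    push_cast
    ring
  have e2 : n ^ (k1 - 1) = n⁻¹ * (n ^ k * n ^ (l * L)) := by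
    have h5 : n ^ k * n ^ (l * L) = n * n ^ (k1 - 1) := by
      rw [← pow_add, ← pow_succ']
      congr 1
      rw [hk1, Nat.mul_comm l L]
      omega
    rw [h5, ← mul_assoc, inv_mul_cancel₀ hn0.ne', one_mul]
  have e3 : n ^ k * ((1 - ε) * n ^ l) ^ L = (1 - ε) ^ L * (n ^ k * n ^ (l * L)) := by
    rw [mul_pow, ← pow_mul]
    ring
  rw [e1, e2, e3] at h2
  have h4 : b * n ^ (l * L) ≤ (θ * n ^ k) * n ^ (l * L) := by
    have h5 : 0 < n ^ k * n ^ (l * L) := by positivity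
    calc b * n ^ (l * L) ≤ (C * n ^ (-δ) + (k1 : ℝ) ^ 2 * n⁻¹ + (r : ℝ) * 2 ^ k * (1 - ε) ^ L) *
          (n ^ k * n ^ (l * L)) := by linarith
      _ ≤ θ * (n ^ k * n ^ (l * L)) := by
          apply mul_le_mul_of_nonneg_right _ h5.le
          linarith
      _ = _ := by ring
  exact le_of_mul_le_mul_right h4 hpos

end Pool.Agent.H21.LA
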