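import Pool.Agent.H21.LA.Ac
import Pool.Agent.H21.LA.Ap
import Pool.Agent.H21.LA.Eo

/-!
MP_8923e7_nt, project LA.  The three statements on shattered sets.
-/

namespace Pool.Agent.H21.LA

open Finset Pool.Agent.H21.QT Pool.Agent.H21.CP

open Classical in
theorem la_many (κ : ℝ) (hκ : 0 < κ) (hκ1 : κ ≤ 1 / 2) (Q : ℕ → Prop)
    (hQ : ∀ p : ℕ, p.Prime → Q p) (hM : ∀ k : ℕ, 1 ≤ k → MED κ Q k) (r m l : ℕ) (hr : 1 ≤ r)
    (hm : 1 ≤ m) (ε : ℝ) (hε : 0 < ε) (hε1 : ε < 1) :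
    ∃ K : ℕ, ∀ H : Finset ℕ, (∀ p : ℕ, p.Prime → ∃ a : ℕ, ∀ h ∈ H, ¬ p ∣ a + h) →
      K ≤ H.card → ∀ c : ℕ → Fin r,
      (1 - ε) * (κ / r) ^ (m - 1) * (H.card.choose m : ℝ) ≤
        (((powersetCard m H).filter (fun B => ∃ i, Shat2 Q c i H l ε B)).card : ℝ) := by
  obtain ⟨k0, η, hη, hηκ, h⟩ := ab_many r m hr hm κ ε hκ (by linarith) hε hε1
  obtain ⟨K1, h1⟩ := h (max k0 1) (le_max_left _ _)
  obtain ⟨K2, h2⟩ := en_cov κ Q hQ hM r m l (max k0 1) (le_max_right _ _) η ε (ε / 8) hη hε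
    hε1.le (by linarith)
  refine ⟨max K1 K2, fun H hH hcard c => ?_⟩
  refine (h1 H ((le_max_left _ _).trans hcard) (Fam Q c H m l ε)
    (fun i X Y => fam_mono Q c H m l ε i X Y) (h2 H hH ((le_max_right _ _).trans hcard) c)).trans ?_
  have hsub : (powersetCard m H).filter (fun B => ∃ i, Fam Q c H m l ε i B) ⊆
      (powersetCard m H).filter (fun B => ∃ i, Shat2 Q c i H l ε B) := by
    intro B hB
    rw [mem_filter, mem_powersetCard] at hB ⊢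
    obtain ⟨hB1, i, hi⟩ := hB
    exact ⟨hB1, i, hi B Subset.rfl hB1.2⟩
  exact_mod_cast card_le_card hsub

open Classical in
theorem la_pairs (κ : ℝ) (hκ : 0 < κ) (Q : ℕ → Prop)
    (hQ : ∀ p : ℕ, p.Prime → Q p) (hM : ∀ k : ℕ, 1 ≤ k → MED κ Q k) (r t l : ℕ) (hr : 1 ≤ r)
    (ht : 1 ≤ t) (htκ : (r : ℝ) < κ * (t + 1)) (ε : ℝ) (hε : 0 < ε) (hε1 : ε < 1) :
    ∃ K : ℕ, ∀ H : Finset ℕ, (∀ p : ℕ, p.Prime → ∃ a : ℕ, ∀ h ∈ H, ¬ p ∣ a + h) →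
      K ≤ H.card → ∀ c : ℕ → Fin r,
      (1 - ε) / t * (H.card.choose 2 : ℝ) ≤
        (((powersetCard 2 H).filter (fun B => ∃ i, Shat2 Q c i H l ε B)).card : ℝ) := by
  have hr0 : (0 : ℝ) < r := by exact_mod_cast hr
  obtain ⟨η, hη⟩ : ∃ η : ℝ, η = (κ * (t + 1) - r) / (2 * (t + 1)) := ⟨_, rfl⟩
  have hη0 : 0 < η := by
    rw [hη]
    apply div_pos (by linarith) (by positivity)
  have hη1 : η * (t + 1) = (κ * (t + 1) - r) / 2 := by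
    rw [hη]
    field_simp
  have hlam : 1 < (κ - η) / r * (t + 1) := by
    rw [div_mul_eq_mul_div, lt_div_iff₀ hr0]
    nlinarith
  obtain ⟨k0, h⟩ := ab_pairs r t ht ((κ - η) / r) ε hlam hε hε1
  obtain ⟨K1, h1⟩ := h (max k0 1) (le_max_left _ _)
  obtain ⟨K2, h2⟩ := en_cov κ Q hQ hM r 2 l (max k0 1) (le_max_right _ _) η ε (ε / 8) hη0 hε
    hε1.le (by linarith)
  refine ⟨max K1 K2, fun H hH hcard c => ?_⟩
  refine (h1 H ((le_max_left _ _).trans hcard) (Fam Q c H 2 l ε)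
    (fun i X Y => fam_mono Q c H 2 l ε i X Y) (h2 H hH ((le_max_right _ _).trans hcard) c)).trans ?_
  have hsub : (powersetCard 2 H).filter (fun B => ∃ i, Fam Q c H 2 l ε i B) ⊆
      (powersetCard 2 H).filter (fun B => ∃ i, Shat2 Q c i H l ε B) := by
    intro B hB
    rw [mem_filter, mem_powersetCard] at hB ⊢
    obtain ⟨hB1, i, hi⟩ := hB
    exact ⟨hB1, i, hi B Subset.rfl hB1.2⟩
  exact_mod_cast card_le_card hsub

open Classical in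
theorem la_clique (κ : ℝ) (hκ : 0 < κ) (hκ1 : κ ≤ 1 / 2) (Q : ℕ → Prop)
    (hQ : ∀ p : ℕ, p.Prime → Q p) (hM : ∀ k : ℕ, 1 ≤ k → MED κ Q k) (r m l : ℕ) (hr : 1 ≤ r)
    (hm : 2 ≤ m) (ε : ℝ) (hε : 0 < ε) (hεr : ε ≤ κ / (2 * r)) :
    ∃ K : ℕ, ∀ H : Finset ℕ, (∀ p : ℕ, p.Prime → ∃ a : ℕ, ∀ h ∈ H, ¬ p ∣ a + h) →
      K ≤ H.card → ∀ c : ℕ → Fin r,
      ∃ (i : Fin r) (S : Finset ℕ), S ⊆ H ∧ (κ / r - ε) * (H.card : ℝ) ≤ (S.card : ℝ) ∧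
      (1 - ε) * (S.card.choose m : ℝ) ≤
        (((powersetCard m S).filter (fun B => Shat2 Q c i H l ε B)).card : ℝ) := by
  have hr1 : (1 : ℝ) ≤ r := by exact_mod_cast hr
  have hε1 : ε ≤ 1 := by
    refine hεr.trans ?_
    rw [div_le_one (by positivity)]
    linarith
  obtain ⟨k0, h⟩ := ab_clique r m hr hm κ ε hκ hκ1 hε hεr
  obtain ⟨K1, h1⟩ := h (max k0 1) (le_max_left _ _)
  obtain ⟨K2, h2⟩ := en_cov κ Q hQ hM r m l (max k0 1) (le_max_right _ _) (ε / 4) ε (1 / 4)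
    (by linarith) hε hε1 (by norm_num)
  refine ⟨max K1 K2, fun H hH hcard c => ?_⟩
  obtain ⟨i, S, hS, hS1, hS2⟩ := h1 H ((le_max_left _ _).trans hcard) (Fam Q c H m l ε)
    (fun i X Y => fam_mono Q c H m l ε i X Y) (h2 H hH ((le_max_right _ _).trans hcard) c)
  refine ⟨i, S, hS, hS1, hS2.trans ?_⟩
  have hsub : (powersetCard m S).filter (fun B => Fam Q c H m l ε i B) ⊆
      (powersetCard m S).filter (fun B => Shat2 Q c i H l ε B) := by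
    intro B hB
    rw [mem_filter, mem_powersetCard] at hB ⊢
    obtain ⟨hB1, hi⟩ := hB
    exact ⟨hB1, hi B Subset.rfl hB1.2⟩
  exact_mod_cast card_le_card hsub

theorem shat2_mono (Q : ℕ → Prop) {r : ℕ} (c : ℕ → Fin r) (i : Fin r) (H : Finset ℕ) (l : ℕ)
    {ε ε' : ℝ} (h : ε' ≤ ε) (B : Finset ℕ) (hB : Shat2 Q c i H l ε' B) : Shat2 Q c i H l ε B := by
  unfold Shat2 at hB ⊢
  refine le_trans ?_ hB
  exact mul_le_mul_of_nonneg_right (by linarith) (Nat.cast_nonneg _)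

end Pool.Agent.H21.LA
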