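import Pool.Agent.H21.LA.Ap
import Pool.Agent.H21.CP.Gq
import Pool.Agent.H21.QT.Fn

/-!
MP_8923e7_nt, project LA.  Consecutive primes: pairs.
-/

namespace Pool.Agent.H21.LA

open Finset Pool.Agent.H21.QT Pool.Agent.H21.CP

/-- number of the tuples whose restriction to `I` is in `𝓑` -/
theorem ind_count {k t : ℕ} (H : Finset ℕ) (𝓑 : Finset (Fin (t + 1) → ℕ)) (I : Finset (Fin k))
    (hI : I.card = t + 1) (S : Finset (Fin k → ℕ))
    (hS : ∀ a ∈ S, (∀ j, a j ∈ H) ∧ (fun i => a (I.orderEmbOfFin hI i)) ∈ 𝓑) :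
    S.card ≤ 𝓑.card * H.card ^ (k - (t + 1)) := by
  classical
  have hcard : Fintype.card (𝓑 × ((Iᶜ : Finset (Fin k)) → H)) = 𝓑.card * H.card ^ (k - (t + 1)) := by
    rw [Fintype.card_prod, Fintype.card_fun, Fintype.card_coe, Fintype.card_coe,
      Fintype.card_coe, card_compl, Fintype.card_fin, hI]
  rw [← hcard, ← Fintype.card_coe S]
  apply Fintype.card_le_of_injective (fun a : S =>
    ((⟨fun i => a.1 (I.orderEmbOfFin hI i), (hS a.1 a.2).2⟩ : 𝓑),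
      (fun j : (Iᶜ : Finset (Fin k)) => (⟨a.1 j, (hS a.1 a.2).1 j⟩ : H))))
  intro a b hab
  apply Subtype.ext
  funext j
  rw [Prod.mk.injEq] at hab
  by_cases hj : j ∈ I
  · have h0 : j ∈ Set.range (I.orderEmbOfFin hI) := by
      rw [range_orderEmbOfFin]
      exact hj
    obtain ⟨i, rfl⟩ := h0
    have h1 := congrArg (fun e : 𝓑 => e.1 i) hab.1
    exact h1
  · have h1 := congrFun hab.2 ⟨j, mem_compl.2 hj⟩
    exact congrArg Subtype.val h1

open Classical in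
theorem ind_pairs (t : ℕ) (ht : 1 ≤ t) (δ C ε : ℝ) (hδ : 0 < δ) (hC : 0 ≤ C) (hε : 0 < ε)
    (hε1 : ε < 1) : ∃ K : ℕ, ∀ (H : Finset ℕ) (Q : ℕ → ℕ → Prop), (∀ x y, Q x y → Q y x) →
      K ≤ H.card →
      (((Fintype.piFinset (fun _ : Fin (t + 1) => H)).filter
        (fun a => ∀ i j, i ≠ j → ¬ Q (a i) (a j))).card : ℝ) ≤
        C * (H.card : ℝ) ^ (((t + 1 : ℕ) : ℝ) - δ) →
      (1 - ε) / t * (H.card.choose 2 : ℝ) ≤
        (((powersetCard 2 H).filter (fun B => ∃ x ∈ B, ∃ y ∈ B, x ≠ y ∧ Q x y)).card : ℝ) := by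
  have htR : (1 : ℝ) ≤ t := by exact_mod_cast ht
  have ht0 : (0 : ℝ) < t := by linarith
  obtain ⟨k, hkd⟩ : ∃ k : ℕ, k = ⌈4 * (t : ℝ) / ε⌉₊ + 2 + t := ⟨_, rfl⟩
  have hkR : 4 * (t : ℝ) / ε ≤ (k : ℝ) - 1 := by
    have h1 : 4 * (t : ℝ) / ε ≤ ⌈4 * (t : ℝ) / ε⌉₊ := Nat.le_ceil _
    have h2 : (k : ℝ) = (⌈4 * (t : ℝ) / ε⌉₊ : ℝ) + 2 + t := by rw [hkd]; push_cast; ring
    linarith
  have hk2 : 2 ≤ k := by omega
  have hkt : t + 1 ≤ k := by omega
  obtain ⟨K, hK⟩ : ∃ K : ℕ, ∀ n : ℕ, K ≤ n → (2 : ℝ) ^ k * C * (n : ℝ) ^ (-δ) ≤ ε / 8 := by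
    have h1 : Filter.Tendsto (fun n : ℕ => (2 : ℝ) ^ k * C * (n : ℝ) ^ (-δ))
        Filter.atTop (nhds ((2 : ℝ) ^ k * C * 0)) :=
      ((tendsto_rpow_neg_atTop hδ).comp tendsto_natCast_atTop_atTop).const_mul _
    rw [mul_zero] at h1
    exact Filter.eventually_atTop.1 (h1.eventually (ge_mem_nhds (show (0 : ℝ) < ε / 8 by linarith)))
  refine ⟨max K (⌈(k : ℝ) ^ 2 * 8 / ε⌉₊ + 1), fun H Q hQ hH hbad => ?_⟩
  have hn0 : ⌈(k : ℝ) ^ 2 * 8 / ε⌉₊ + 1 ≤ H.card := (le_max_right _ _).trans hH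
  have hn1 : 1 ≤ H.card := by omega
  have hnR : (0 : ℝ) < H.card := by exact_mod_cast hn1
  have hnk : (k : ℝ) ^ 2 ≤ ε / 8 * H.card := by
    have h1 : (k : ℝ) ^ 2 * 8 / ε ≤ H.card :=
      (Nat.le_ceil _).trans (by exact_mod_cast (by omega : ⌈(k : ℝ) ^ 2 * 8 / ε⌉₊ ≤ H.card))
    rw [div_le_iff₀ hε] at h1
    linarith
  obtain ⟨𝓑, h𝓑⟩ : ∃ 𝓑 : Finset (Fin (t + 1) → ℕ), 𝓑 =
    (Fintype.piFinset (fun _ : Fin (t + 1) => H)).filter
        (fun a => ∀ i j, i ≠ j → ¬ Q (a i) (a j)) := ⟨_, rfl⟩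
  rw [← h𝓑] at hbad
  obtain ⟨P, hP⟩ : ∃ P : (Fin k → ℕ) → Prop, ∀ a, P a ↔ ∀ I : Finset (Fin k), I.card = t + 1 →
    ∃ x ∈ I, ∃ y ∈ I, x ≠ y ∧ Q (a x) (a y) := ⟨_, fun _ => Iff.rfl⟩
  have hbadk : (((Fintype.piFinset (fun _ : Fin k => H)).filter (fun a => ¬ P a)).card : ℝ) ≤
      ε / 8 * (H.card : ℝ) ^ k := by
    have h1 : (Fintype.piFinset (fun _ : Fin k => H)).filter (fun a => ¬ P a) ⊆
        ((univ : Finset (Finset (Fin k))).filter (fun I => I.card = t + 1)).biUnion (fun I =>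
          (Fintype.piFinset (fun _ : Fin k => H)).filter (fun a =>
            ∀ x ∈ I, ∀ y ∈ I, x ≠ y → ¬ Q (a x) (a y))) := by
      intro a ha
      rw [mem_filter, hP] at ha
      obtain ⟨ha1, ha2⟩ := ha
      push Not at ha2
      obtain ⟨I, hI, hI2⟩ := ha2
      rw [mem_biUnion]
      exact ⟨I, mem_filter.2 ⟨mem_univ _, hI⟩, mem_filter.2 ⟨ha1, hI2⟩⟩
    have h2 : ∀ I ∈ (univ : Finset (Finset (Fin k))).filter (fun I => I.card = t + 1),
        ((Fintype.piFinset (fun _ : Fin k => H)).filter (fun a =>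
            ∀ x ∈ I, ∀ y ∈ I, x ≠ y → ¬ Q (a x) (a y))).card ≤
          𝓑.card * H.card ^ (k - (t + 1)) := by
      intro I hI
      rw [mem_filter] at hI
      apply ind_count H 𝓑 I hI.2
      intro a ha
      rw [mem_filter, Fintype.mem_piFinset] at ha
      refine ⟨ha.1, ?_⟩
      rw [h𝓑, mem_filter, Fintype.mem_piFinset]
      refine ⟨fun i => ha.1 _, fun i j hij => ?_⟩
      exact ha.2 _ (orderEmbOfFin_mem I hI.2 i) _ (orderEmbOfFin_mem I hI.2 j)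
        (fun h => hij ((I.orderEmbOfFin hI.2).injective h))
    have h3 := (card_le_card h1).trans (card_biUnion_le_card_mul _ _ _ h2)
    have h4 : ((univ : Finset (Finset (Fin k))).filter (fun I => I.card = t + 1)).card ≤ 2 ^ k := by
      refine (card_filter_le _ _).trans (le_of_eq ?_)
      rw [card_univ, Fintype.card_finset, Fintype.card_fin]
    have h5 := h3.trans (Nat.mul_le_mul_right _ h4)
    have h6 : (((Fintype.piFinset (fun _ : Fin k => H)).filter (fun a => ¬ P a)).card : ℝ) ≤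
        (2 : ℝ) ^ k * ((𝓑.card : ℝ) * (H.card : ℝ) ^ (k - (t + 1))) := by exact_mod_cast h5
    refine h6.trans ?_
    have h7 := hK H.card ((le_max_left _ _).trans hH)
    have e1 : (H.card : ℝ) ^ (((t + 1 : ℕ) : ℝ) - δ) * (H.card : ℝ) ^ (k - (t + 1)) =
        (H.card : ℝ) ^ (-δ) * (H.card : ℝ) ^ k := by
      rw [← Real.rpow_natCast _ (k - (t + 1)), ← Real.rpow_natCast _ k, ← Real.rpow_add hnR,
        ← Real.rpow_add hnR, Nat.cast_sub hkt]
      congr 1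
      ring
    calc (2 : ℝ) ^ k * ((𝓑.card : ℝ) * (H.card : ℝ) ^ (k - (t + 1)))
        ≤ (2 : ℝ) ^ k * ((C * (H.card : ℝ) ^ (((t + 1 : ℕ) : ℝ) - δ)) *
          (H.card : ℝ) ^ (k - (t + 1))) := by gcongr
      _ = (2 : ℝ) ^ k * C * ((H.card : ℝ) ^ (((t + 1 : ℕ) : ℝ) - δ) *
          (H.card : ℝ) ^ (k - (t + 1))) := by ring
      _ = ((2 : ℝ) ^ k * C * (H.card : ℝ) ^ (-δ)) * (H.card : ℝ) ^ k := by rw [e1]; ring
      _ ≤ _ := mul_le_mul_of_nonneg_right h7 (by positivity)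
  have h1 := gd_low (by omega : 1 ≤ k) H P (ε / 8) hbadk hn1 hnk
  obtain ⟨β, hβ⟩ : ∃ β : ℝ, β = (1 - ε / 4) / t := ⟨_, rfl⟩
  have hβ0 : 0 ≤ β := by
    rw [hβ]
    exact div_nonneg (by linarith) ht0.le
  have hβ1 : β * (k.choose 2 : ℝ) ≤ (k : ℝ) ^ 2 / (2 * t) - k / 2 := by
    rw [Nat.cast_choose_two, hβ]
    have e : (1 - ε / 4) / t * ((k : ℝ) * (k - 1) / 2) = (k / (2 * t)) * ((1 - ε / 4) * (k - 1)) := by
      ring
    have e2 : (k : ℝ) ^ 2 / (2 * t) - k / 2 = (k / (2 * t)) * (k - t) := by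
      field_simp
    rw [e, e2]
    apply mul_le_mul_of_nonneg_left _ (by positivity)
    rw [div_le_iff₀ hε] at hkR
    have h3 : (t : ℝ) ≤ ε / 4 * (k - 1) := by linarith
    linarith
  have h2 := transfer hk2 H hn1 ((powersetCard 2 H).filter
      (fun B => ∃ x ∈ B, ∃ y ∈ B, x ≠ y ∧ Q x y))
    (fun B hB => (mem_powersetCard.1 (mem_filter.1 hB).1).2)
    ((Fintype.piFinset (fun _ : Fin k => H)).filter
      (fun a => P a ∧ Function.Injective a))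
    (fun a ha => by
      rw [mem_filter, Fintype.mem_piFinset] at ha
      exact ⟨ha.2.2, ha.1⟩) β (2 * (ε / 8)) hβ0 (by linarith) (by
      intro a ha
      rw [mem_filter, Fintype.mem_piFinset, hP] at ha
      obtain ⟨haH, hPa, hinj⟩ := ha
      refine hβ1.trans ((turan_t t k ht (fun x y => Q (a x) (a y)) ?_ hPa).trans ?_)
      · exact fun x y h => hQ _ _ h
      · have h4 : (powersetCard 2 (univ : Finset (Fin k))).filter
            (fun B => ∃ x ∈ B, ∃ y ∈ B, x ≠ y ∧ Q (a x) (a y)) ⊆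
            (powersetCard 2 (univ : Finset (Fin k))).filter
            (fun J => J.image a ∈ (powersetCard 2 H).filter
              (fun B => ∃ x ∈ B, ∃ y ∈ B, x ≠ y ∧ Q x y)) := by
          intro B hB
          rw [mem_filter, mem_powersetCard] at hB
          obtain ⟨⟨hB1, hB2⟩, x, hx, y, hy, hxy, hq⟩ := hB
          rw [mem_filter, mem_powersetCard, mem_filter, mem_powersetCard]
          refine ⟨⟨hB1, hB2⟩, ⟨⟨?_, ?_⟩, a x, mem_image_of_mem _ hx, a y, mem_image_of_mem _ hy,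
            fun h => hxy (hinj h), hq⟩⟩
          · intro z hz
            rw [mem_image] at hz
            obtain ⟨j, _, rfl⟩ := hz
            exact haH j
          · rw [card_image_of_injective _ hinj, hB2]
        exact_mod_cast card_le_card h4) h1
  refine le_trans ?_ h2
  apply mul_le_mul_of_nonneg_right _ (Nat.cast_nonneg _)
  rw [hβ, ← mul_div_assoc]
  apply div_le_div_of_nonneg_right _ ht0.le
  nlinarith

open Classical in
/-- a third of the pairs are consecutive primes infinitely often -/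
theorem third_pairs (κ : ℝ) (Q : ℕ → Prop) (hQ : ∀ p : ℕ, p.Prime → Q p) (t : ℕ) (ht : 1 ≤ t)
    (hκ : 1 < κ * ((t + 1 : ℕ) : ℝ)) (hM : MED κ Q (t + 1)) (ε : ℝ) (hε : 0 < ε) (hε1 : ε < 1) :
    ∃ K : ℕ, ∀ H : Finset ℕ,
    (∀ p : ℕ, p.Prime → ∃ a : ℕ, ∀ h ∈ H, ¬ p ∣ a + h) → K ≤ H.card →
    (1 - ε) / t * (H.card.choose 2 : ℝ) ≤
      (((powersetCard 2 H).filter (fun B => ∃ x ∈ B, ∃ y ∈ B, GapP ((x : ℕ) : ℤ) ((y : ℕ) : ℤ))).card : ℝ) := by
  obtain ⟨δ, C, hδ, hδ1, hC, h⟩ := cons_chen κ Q hQ (t + 1) hκ hM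
  obtain ⟨K, hK⟩ := ind_pairs t ht δ C ε hδ hC hε hε1
  refine ⟨K + 1, fun H hH hcard => ?_⟩
  obtain ⟨R, hR⟩ : ∃ R : ℕ → ℕ → Prop, ∀ x y, R x y ↔
    (GapP (x : ℤ) (y : ℤ) ∨ GapP (y : ℤ) (x : ℤ)) := ⟨_, fun _ _ => Iff.rfl⟩
  have h1 := hK H R (fun x y hxy => (hR _ _).2 ((hR _ _).1 hxy).symm) (by omega) ?_
  · simp only [hR] at h1
    refine h1.trans ?_
    have hsub : (powersetCard 2 H).filter (fun B => ∃ x ∈ B, ∃ y ∈ B, x ≠ y ∧
        (GapP ((x : ℕ) : ℤ) ((y : ℕ) : ℤ) ∨ GapP ((y : ℕ) : ℤ) ((x : ℕ) : ℤ))) ⊆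
        (powersetCard 2 H).filter (fun B => ∃ x ∈ B, ∃ y ∈ B, GapP ((x : ℕ) : ℤ) ((y : ℕ) : ℤ)) := by
      intro B hB
      rw [mem_filter] at hB ⊢
      refine ⟨hB.1, ?_⟩
      obtain ⟨x, hx, y, hy, _, hxy | hxy⟩ := hB.2
      · exact ⟨x, hx, y, hy, hxy⟩
      · exact ⟨y, hy, x, hx, hxy⟩
    exact_mod_cast card_le_card hsub
  · have h2 := h H.card (fun _ => H.image (fun n : ℕ => (n : ℤ))) (by omega)
      (fun _ => card_image_le)
    refine le_trans ?_ h2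
    rw [Nat.cast_le]
    apply card_le_card_of_injOn (fun (a : Fin (t + 1) → ℕ) (j : Fin (t + 1)) => (a j : ℤ))
    · intro a ha
      rw [mem_coe, mem_filter, Fintype.mem_piFinset] at ha
      rw [mem_coe, mem_filter, Fintype.mem_piFinset]
      refine ⟨fun j => mem_image_of_mem _ (ha.1 j), ?_, ?_⟩
      · intro p hp
        obtain ⟨b, hb⟩ := hH p hp
        refine ⟨(b : ℤ), fun j hj => hb (a j) (ha.1 j) ?_⟩
        have h3 : (p : ℤ) ∣ ((b + a j : ℕ) : ℤ) := by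
          push_cast
          exact hj
        exact_mod_cast h3
      · intro i j hij
        have hgap : GapP ((a i : ℕ) : ℤ) ((a j : ℕ) : ℤ) :=
          ⟨hij.1, hij.2.mono fun N hN => hN.1⟩
        by_cases hne : i = j
        · subst hne
          exact lt_irrefl _ hgap.1
        · exact ha.2 i j hne ((hR _ _).2 (Or.inl hgap))
    · intro a _ b _ hab
      funext j
      have h3 := congrFun hab j
      simp only at h3
      exact_mod_cast h3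

open Classical in
theorem pair_gap_t (κ : ℝ) (Q : ℕ → Prop) (hQ : ∀ p : ℕ, p.Prime → Q p) (t : ℕ) (ht : 1 ≤ t)
    (hκ : 1 < κ * ((t + 1 : ℕ) : ℝ)) (hM : MED κ Q (t + 1)) (c : ℝ) (hc0 : 0 < c) (hc : c < 1 / t) :
    ∃ K0 : ℕ, ∀ k, K0 ≤ k → Pool.Agent.H21.SH.PairProp Pool.Agent.H21.SH.GapE c k := by
  have ht0 : (0 : ℝ) < t := by exact_mod_cast ht
  rw [lt_div_iff₀ ht0] at hc
  obtain ⟨K0, hK⟩ := third_pairs κ Q hQ t ht hκ hM (1 - c * t) (by linarith)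
    (by have : 0 < c * t := by positivity
        linarith)
  refine ⟨K0, fun k hk => ?_⟩
  unfold Pool.Agent.H21.SH.PairProp
  intro G hG hcard
  have h1 := hK G hG (by omega)
  rw [hcard] at h1
  have e : (1 - (1 - c * t)) / t = c := by
    field_simp
    ring
  rw [e] at h1
  refine h1.trans ?_
  have hsub : (powersetCard 2 G).filter (fun B => ∃ x ∈ B, ∃ y ∈ B, GapP ((x : ℕ) : ℤ) ((y : ℕ) : ℤ)) ⊆
      (powersetCard 2 G).filter (fun B => ∃ a ∈ B, ∃ b ∈ B, a < b ∧ Pool.Agent.H21.SH.GapE (b - a)) := by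
    intro B hB
    rw [mem_filter] at hB ⊢
    refine ⟨hB.1, ?_⟩
    obtain ⟨x, hx, y, hy, hxy⟩ := hB.2
    exact ⟨x, hx, y, hy, by exact_mod_cast hxy.1, gapE_of_gapP x y hxy⟩
  have := card_le_card hsub
  exact_mod_cast this

end Pool.Agent.H21.LA
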