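import Pool.Agent.H21.LA.Tf
import Pool.Agent.H21.QT.Ct
import Pool.Agent.H21.QT.Tl

/-!
MP_8923e7_nt, project LA.  Abstract form of the theorem on a large set almost all of whose `m`-subsets are good
(containers).
-/

namespace Pool.Agent.H21.LA

open Finset Pool.Agent.H21.QT

private theorem sa_few (k q : ℕ) (hk : 1 ≤ k) :
    ((univ : Finset (Finset (Fin k))).filter (fun I => I.card ≤ q)).card ≤ (q + 1) * k ^ q := by
  classical
  have h1 : (univ : Finset (Finset (Fin k))).filter (fun I => I.card ≤ q) ⊆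
      (range (q + 1)).biUnion (fun j => powersetCard j (univ : Finset (Fin k))) := by
    intro I hI
    rw [Finset.mem_filter] at hI
    refine Finset.mem_biUnion.2 ⟨I.card, Finset.mem_range.2 (by omega), ?_⟩
    rw [Finset.mem_powersetCard]
    exact ⟨Finset.subset_univ _, rfl⟩
  refine (Finset.card_le_card h1).trans ?_
  have h2 : ∀ j ∈ range (q + 1), (powersetCard j (univ : Finset (Fin k))).card ≤ k ^ q := by
    intro j hj
    rw [Finset.card_powersetCard, Finset.card_univ, Fintype.card_fin]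
    exact (Nat.choose_le_pow k j).trans
      (Nat.pow_le_pow_right hk (by rw [Finset.mem_range] at hj; omega))
  refine (Finset.card_biUnion_le_card_mul _ _ _ h2).trans (le_of_eq ?_)
  rw [Finset.card_range]

private theorem sa_log {x : ℝ} (hx : 0 ≤ x) : x - x ^ 2 / 2 ≤ Real.log (1 + x) := by
  have h1 := Real.le_log_one_add_of_nonneg hx
  refine le_trans ?_ h1
  rw [le_div_iff₀ (by linarith)]
  nlinarith [pow_nonneg hx 3]

private theorem sa_exp {ε ρ lam Φ : ℝ} (k : ℕ) (hε : 0 < ε)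
    (hρ : 0 ≤ ρ) (hl0 : 0 ≤ lam) (hl : lam ≤ 1 / 2) (hΦ : 0 ≤ Φ)
    (hd : ρ + ε / 4 - lam ≤ - (ε / 2)) :
    (1 + ε * (ρ + ε / 4)) ^ k / (1 + ε) ^ (k * lam - Φ) ≤
      Real.exp (Φ * ε) * Real.exp (-(1 / 4 * ε ^ 2) * k) := by
  have h1 : 0 < 1 + ε * (ρ + ε / 4) := by positivity
  have h2 : 0 < 1 + ε := by linarith
  have e1 : (1 + ε * (ρ + ε / 4)) ^ k = Real.exp (k * Real.log (1 + ε * (ρ + ε / 4))) := by
    rw [Real.exp_nat_mul, Real.exp_log h1]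
  have e2 : (1 + ε) ^ (k * lam - Φ) = Real.exp (Real.log (1 + ε) * (k * lam - Φ)) := by
    rw [Real.rpow_def_of_pos h2]
  rw [e1, e2, ← Real.exp_sub, ← Real.exp_add]
  apply Real.exp_le_exp.2
  have h3 : Real.log (1 + ε * (ρ + ε / 4)) ≤ ε * (ρ + ε / 4) := by
    have := Real.log_le_sub_one_of_pos h1
    linarith
  have h4 := sa_log hε.le
  have h5 : Real.log (1 + ε) ≤ ε := by
    have := Real.log_le_sub_one_of_pos h2
    linarith
  have hk : (0 : ℝ) ≤ k := Nat.cast_nonneg k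
  have h6 : (k : ℝ) * Real.log (1 + ε * (ρ + ε / 4)) ≤ k * (ε * (ρ + ε / 4)) :=
    mul_le_mul_of_nonneg_left h3 hk
  have h7 : (k : ℝ) * lam * (ε - ε ^ 2 / 2) ≤ k * lam * Real.log (1 + ε) :=
    mul_le_mul_of_nonneg_left h4 (mul_nonneg hk hl0)
  have h8 : Φ * Real.log (1 + ε) ≤ Φ * ε := mul_le_mul_of_nonneg_left h5 hΦ
  have h9 : (k : ℝ) * ε * (ρ + ε / 4 - lam) ≤ k * ε * (-(ε / 2)) :=
    mul_le_mul_of_nonneg_left hd (mul_nonneg hk hε.le)
  have h10 : (k : ℝ) * ε ^ 2 * lam ≤ k * ε ^ 2 * (1 / 2) :=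
    mul_le_mul_of_nonneg_left hl (by positivity)
  nlinarith

private theorem sa_k (r q : ℕ) (b D : ℝ) (hb : 0 < b) :
    ∃ k0 : ℕ, ∀ k : ℕ, k0 ≤ k → 1 ≤ k ∧
      (r : ℝ) * ((q + 1) * (k : ℝ) ^ q) * (D * Real.exp (-b * k)) ≤ 1 / 4 := by
  have h1 : Filter.Tendsto (fun x : ℝ => x ^ q * Real.exp (-b * x)) Filter.atTop (nhds 0) := by
    have h2 := isLittleO_pow_exp_pos_mul_atTop q hb
    have h3 := h2.tendsto_div_nhds_zero
    refine h3.congr fun x => ?_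
    rw [neg_mul, Real.exp_neg, div_eq_mul_inv]
  have h4 : Filter.Tendsto (fun k : ℕ => (r : ℝ) * (q + 1) * D *
      ((k : ℝ) ^ q * Real.exp (-b * k))) Filter.atTop (nhds ((r : ℝ) * (q + 1) * D * 0)) :=
    (h1.comp tendsto_natCast_atTop_atTop).const_mul _
  rw [mul_zero] at h4
  have h5 := h4.eventually (ge_mem_nhds (show (0 : ℝ) < 1 / 4 by norm_num))
  obtain ⟨k0, hk0⟩ := Filter.eventually_atTop.1 (h5.and (Filter.eventually_ge_atTop 1))
  refine ⟨k0, fun k hk => ⟨(hk0 k hk).2, le_trans (le_of_eq ?_) (hk0 k hk).1⟩⟩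
  ring


theorem cov_large {r k : ℕ} (lam : ℝ) (hlam : 0 < lam) (hk : 1 ≤ k)
    (𝒞 : Fin r → Finset ℕ → Prop) (a : Fin k → ℕ) (h : Cov lam 𝒞 a) :
    ∃ (i : Fin r) (E : Finset (Fin k)), k * lam ≤ (E.card : ℝ) ∧ 𝒞 i (E.image a) := by
  classical
  obtain ⟨w, hw0, hw1, hcov, hrea⟩ := h
  set L : ℝ := k * lam with hL
  have hk' : (0 : ℝ) < k := by exact_mod_cast hk
  have hL0 : 0 < L := by
    rw [hL]
    positivity
  by_contra hcon
  push Not at hcon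
  have hsmall : ∀ i E, 0 < w i E → (E.card : ℝ) < L := by
    intro i E hwE
    by_contra h2
    exact hcon i E (not_lt.1 h2) (hrea i E hwE)
  -- double counting
  have hdc : ∑ j : Fin k, ∑ i, ∑ E ∈ univ.filter (fun E => j ∈ E), w i E =
      ∑ i, ∑ E, w i E * (E.card : ℝ) := by
    rw [Finset.sum_comm]
    refine Finset.sum_congr rfl fun i _ => ?_
    simp only [Finset.sum_filter]
    rw [Finset.sum_comm]
    refine Finset.sum_congr rfl fun E _ => ?_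
    rw [← Finset.sum_filter, Finset.sum_const, nsmul_eq_mul, mul_comm]
    congr 2
    rw [Finset.filter_mem_eq_inter, Finset.univ_inter]
  have h3 : L ≤ ∑ i, ∑ E, w i E * (E.card : ℝ) := by
    rw [← hdc]
    calc L = ∑ _j : Fin k, lam := by
          rw [Finset.sum_const, Finset.card_univ, Fintype.card_fin, nsmul_eq_mul]
      _ ≤ _ := Finset.sum_le_sum fun j _ => hcov j
  have hterm : ∀ i E, w i E * (E.card : ℝ) ≤ w i E * L := by
    intro i E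
    rcases (hw0 i E).eq_or_lt with h0 | h0
    · rw [← h0]; simp
    · exact mul_le_mul_of_nonneg_left (hsmall i E h0).le h0.le
  have h4 : ∑ i, ∑ E, w i E * L ≤ L := by
    simp only [← Finset.sum_mul]
    nlinarith
  by_cases hex : ∃ i E, 0 < w i E
  · obtain ⟨i₀, E₀, h0⟩ := hex
    have h5 : ∑ i, ∑ E, w i E * (E.card : ℝ) < ∑ i, ∑ E, w i E * L := by
      refine Finset.sum_lt_sum (fun i _ => Finset.sum_le_sum fun E _ => hterm i E)
        ⟨i₀, Finset.mem_univ _, ?_⟩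
      exact Finset.sum_lt_sum (fun E _ => hterm i₀ E) ⟨E₀, Finset.mem_univ _,
        mul_lt_mul_of_pos_left (hsmall i₀ E₀ h0) h0⟩
    linarith
  · push Not at hex
    have h5 : ∑ i, ∑ E, w i E * (E.card : ℝ) = 0 := by
      refine Finset.sum_eq_zero fun i _ => Finset.sum_eq_zero fun E _ => ?_
      rw [le_antisymm (hex i E) (hw0 i E), zero_mul]
    linarith

open Classical in
/-- every good tuple has many coordinates in one of the containers -/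
private theorem sa_good {r k : ℕ} (hk : 1 ≤ k) {lam Φ : ℝ} (hη : 0 < lam)
    (H : Finset ℕ) (𝒞 : Fin r → Finset ℕ → Prop) (𝒦 : Fin r → Finset ℕ → Finset ℕ)
    (h𝒦 : ∀ i, ∀ Y ⊆ H, 𝒞 i Y → ∃ F ⊆ Y, (F.card : ℝ) ≤ Φ ∧ Y ⊆ F ∪ 𝒦 i F)
    (a : Fin k → ℕ) (ha : ∀ j, a j ∈ H) (hinj : Function.Injective a)
    (hQ : Cov lam 𝒞 a) :
    ∃ (i : Fin r) (I : Finset (Fin k)), I.card ≤ ⌊Φ⌋₊ ∧
      (k : ℝ) * lam - Φ ≤
        ((univ.filter (fun j => j ∉ I ∧ a j ∈ 𝒦 i (I.image a))).card : ℝ) := by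
  obtain ⟨i, E, hE, hS⟩ := cov_large lam hη hk 𝒞 _ hQ
  have hYH : E.image a ⊆ H := by
    intro x hx
    obtain ⟨j, _, rfl⟩ := Finset.mem_image.1 hx
    exact ha j
  obtain ⟨F, hF, hFΦ, hY⟩ := h𝒦 i _ hYH hS
  obtain ⟨I, hI⟩ : ∃ I : Finset (Fin k), I = E.filter (fun j => a j ∈ F) := ⟨_, rfl⟩
  have hIF : I.image a = F := by
    ext x
    rw [Finset.mem_image]
    constructor
    · rintro ⟨j, hj, rfl⟩
      rw [hI, Finset.mem_filter] at hj
      exact hj.2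
    · intro hx
      obtain ⟨j, hj, rfl⟩ := Finset.mem_image.1 (hF hx)
      exact ⟨j, by rw [hI, Finset.mem_filter]; exact ⟨hj, hx⟩, rfl⟩
  have hIc : (I.card : ℝ) ≤ Φ := by
    have h1 : F.card = I.card := by rw [← hIF, Finset.card_image_of_injective _ hinj]
    rw [← h1]
    exact hFΦ
  refine ⟨i, I, Nat.le_floor hIc, ?_⟩
  have h2 : E \ I ⊆ univ.filter (fun j => j ∉ I ∧ a j ∈ 𝒦 i (I.image a)) := by
    intro j hj
    rw [Finset.mem_sdiff] at hj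
    rw [Finset.mem_filter]
    refine ⟨Finset.mem_univ _, hj.2, ?_⟩
    have h3 : a j ∉ F := fun h => hj.2 (by rw [hI, Finset.mem_filter]; exact ⟨hj.1, h⟩)
    have h4 := hY (Finset.mem_image_of_mem a hj.1)
    rw [Finset.mem_union] at h4
    rw [hIF]
    exact h4.resolve_left h3
  have h5 : E.card ≤ I.card + (univ.filter (fun j => j ∉ I ∧ a j ∈ 𝒦 i (I.image a))).card := by
    have h6 := Finset.card_le_card h2
    have h7 := Finset.le_card_sdiff I E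
    omega
  have h8 : (E.card : ℝ) ≤ (I.card : ℝ) +
      ((univ.filter (fun j => j ∉ I ∧ a j ∈ 𝒦 i (I.image a))).card : ℝ) := by exact_mod_cast h5
  linarith

open Classical in
private theorem sa_count {r k : ℕ} (hk : 1 ≤ k) {ε lam Φ θ : ℝ} (hε : 0 < ε)
    (hη : 0 < lam) (H : Finset ℕ) (𝒞 : Fin r → Finset ℕ → Prop) (R : ℕ)
    (𝒦 : Fin r → Finset ℕ → Finset ℕ)
    (h𝒦1 : ∀ i, ∀ F, 𝒦 i F ⊆ H ∧ (𝒦 i F).card ≤ R)
    (h𝒦 : ∀ i, ∀ Y ⊆ H, 𝒞 i Y → ∃ F ⊆ Y, (F.card : ℝ) ≤ Φ ∧ Y ⊆ F ∪ 𝒦 i F)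
    (hbad : (((Fintype.piFinset (fun _ : Fin k => H)).filter
        (fun a => ¬ Cov lam 𝒞 a)).card : ℝ) ≤
        θ * (H.card : ℝ) ^ k) :
    (H.card : ℝ) ^ k ≤ (k : ℝ) ^ 2 * (H.card : ℝ) ^ (k - 1) + θ * (H.card : ℝ) ^ k +
      (r : ℝ) * ((⌊Φ⌋₊ + 1) * (k : ℝ) ^ ⌊Φ⌋₊) *
        (((H.card : ℝ) + ε * R) ^ k / (1 + ε) ^ ((k : ℝ) * lam - Φ)) := by
  obtain ⟨A, hA⟩ : ∃ A : Finset (Fin k → ℕ), A = Fintype.piFinset (fun _ : Fin k => H) :=
    ⟨_, rfl⟩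
  obtain ⟨t, ht⟩ : ∃ t : ℝ, t = (k : ℝ) * lam - Φ := ⟨_, rfl⟩
  have hAc : A.card = H.card ^ k := by
    rw [hA, Fintype.card_piFinset, Finset.prod_const, Finset.card_univ, Fintype.card_fin]
  have hcov : A ⊆ (A.filter (fun a => ¬ Function.Injective a) ∪
      A.filter (fun a => ¬ Cov lam 𝒞 a)) ∪
      ((univ : Finset (Fin r)) ×ˢ
        ((univ : Finset (Finset (Fin k))).filter (fun I => I.card ≤ ⌊Φ⌋₊))).biUnion
        (fun p => A.filter (fun a =>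
          t ≤ ((univ.filter (fun j => j ∉ p.2 ∧ a j ∈ 𝒦 p.1 (p.2.image a))).card : ℝ))) := by
    intro a ha
    by_cases h1 : Function.Injective a
    · by_cases h2 : Cov lam 𝒞 a
      · apply Finset.mem_union_right
        have haH : ∀ j, a j ∈ H := by
          rw [hA, Fintype.mem_piFinset] at ha
          exact ha
        obtain ⟨i, I, hI, h3⟩ := sa_good hk hη H 𝒞 𝒦 h𝒦 a haH h1 h2
        refine Finset.mem_biUnion.2 ⟨(i, I), ?_, ?_⟩
        · rw [Finset.mem_product, Finset.mem_filter]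
          exact ⟨Finset.mem_univ _, Finset.mem_univ _, hI⟩
        · rw [Finset.mem_filter, ht]
          exact ⟨ha, h3⟩
      · exact Finset.mem_union_left _ (Finset.mem_union_right _ (Finset.mem_filter.2 ⟨ha, h2⟩))
    · exact Finset.mem_union_left _ (Finset.mem_union_left _ (Finset.mem_filter.2 ⟨ha, h1⟩))
  have hpos : (0 : ℝ) < 1 + ε := by linarith
  have hcards : (A.card : ℝ) ≤ ((A.filter (fun a => ¬ Function.Injective a)).card : ℝ) +
      ((A.filter (fun a => ¬ Cov lam 𝒞 a)).card : ℝ) +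
      ∑ p ∈ (univ : Finset (Fin r)) ×ˢ
        ((univ : Finset (Finset (Fin k))).filter (fun I => I.card ≤ ⌊Φ⌋₊)),
        ((A.filter (fun a =>
          t ≤ ((univ.filter (fun j => j ∉ p.2 ∧ a j ∈ 𝒦 p.1 (p.2.image a))).card : ℝ))).card : ℝ) := by
    have h1 := Finset.card_le_card hcov
    have h2 := h1.trans (Finset.card_union_le _ _)
    have h3 := h2.trans (Nat.add_le_add (Finset.card_union_le _ _) Finset.card_biUnion_le)
    exact_mod_cast h3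
  have hni : ((A.filter (fun a => ¬ Function.Injective a)).card : ℝ) ≤
      (k : ℝ) ^ 2 * (H.card : ℝ) ^ (k - 1) := by
    have h1 := tf_noninj (k := k) H
    rw [← hA] at h1
    exact_mod_cast h1
  have hterm : ∀ p ∈ (univ : Finset (Fin r)) ×ˢ
        ((univ : Finset (Finset (Fin k))).filter (fun I => I.card ≤ ⌊Φ⌋₊)),
      ((A.filter (fun a =>
          t ≤ ((univ.filter (fun j => j ∉ p.2 ∧ a j ∈ 𝒦 p.1 (p.2.image a))).card : ℝ))).card : ℝ)
        ≤ ((H.card : ℝ) + ε * R) ^ k / (1 + ε) ^ t := by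
    intro p _
    have h1 := tail_count k H (𝒦 p.1) R (h𝒦1 p.1) p.2 t ε hε.le
    rw [← hA] at h1
    refine h1.trans ?_
    apply div_le_div_of_nonneg_right _ (Real.rpow_nonneg hpos.le _)
    have h2 : p.2.card ≤ k := by
      have := Finset.card_le_univ p.2
      rwa [Fintype.card_fin] at this
    have h3 : (H.card : ℝ) ^ p.2.card ≤ ((H.card : ℝ) + ε * R) ^ p.2.card := by
      apply pow_le_pow_left₀ (Nat.cast_nonneg _)
      have : (0 : ℝ) ≤ ε * R := by positivity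
      linarith
    calc (H.card : ℝ) ^ p.2.card * ((H.card : ℝ) + ε * R) ^ (k - p.2.card)
        ≤ ((H.card : ℝ) + ε * R) ^ p.2.card * ((H.card : ℝ) + ε * R) ^ (k - p.2.card) :=
          mul_le_mul_of_nonneg_right h3 (by positivity)
      _ = ((H.card : ℝ) + ε * R) ^ k := by
          rw [← pow_add]
          congr 1
          omega
  have hsum := Finset.sum_le_sum hterm
  rw [Finset.sum_const, nsmul_eq_mul, Finset.card_product, Finset.card_univ, Fintype.card_fin]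
    at hsum
  have hfew : (((r * ((univ : Finset (Finset (Fin k))).filter
      (fun I => I.card ≤ ⌊Φ⌋₊)).card : ℕ)) : ℝ) ≤
      (r : ℝ) * ((⌊Φ⌋₊ + 1) * (k : ℝ) ^ ⌊Φ⌋₊) := by
    have h1 := Nat.mul_le_mul_left r (sa_few k ⌊Φ⌋₊ hk)
    exact_mod_cast h1
  have hW : 0 ≤ ((H.card : ℝ) + ε * R) ^ k / (1 + ε) ^ t :=
    div_nonneg (by positivity) (Real.rpow_nonneg hpos.le _)
  have h9 := mul_le_mul_of_nonneg_right hfew hW
  rw [← hA] at hbad
  rw [hAc] at hcards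
  push_cast at hcards
  rw [← ht]
  linarith

open Classical in
theorem ab_clique (r m : ℕ) (hr : 1 ≤ r) (hm : 2 ≤ m) (κ ε : ℝ) (hκ : 0 < κ) (hκ1 : κ ≤ 1 / 2)
    (hε : 0 < ε) (hεr : ε ≤ κ / (2 * r)) :
    ∃ k0 : ℕ, ∀ k : ℕ, k0 ≤ k → ∃ K : ℕ, ∀ H : Finset ℕ, K ≤ H.card →
      ∀ 𝒞 : Fin r → Finset ℕ → Prop,
      (∀ i (X Y : Finset ℕ), X ⊆ Y → 𝒞 i Y → 𝒞 i X) →
      (((Fintype.piFinset (fun _ : Fin k => H)).filter
        (fun a => ¬ Cov ((κ - ε / 4) / r) 𝒞 a)).card : ℝ) ≤ 1 / 4 * (H.card : ℝ) ^ k →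
      ∃ (i : Fin r) (S : Finset ℕ), S ⊆ H ∧ (κ / r - ε) * (H.card : ℝ) ≤ (S.card : ℝ) ∧
      (1 - ε) * (S.card.choose m : ℝ) ≤
        (((powersetCard m S).filter (fun B => 𝒞 i B)).card : ℝ) := by
  have hr1 : (1 : ℝ) ≤ r := by exact_mod_cast hr
  have hr0 : (0 : ℝ) < r := by linarith
  have hεr' : ε * (2 * r) ≤ κ := by
    rwa [le_div_iff₀ (by positivity)] at hεr
  have hε4 : ε ≤ 1 / 4 := by nlinarith
  have hε1 : ε ≤ 1 := by linarith
  have hεκ : ε ≤ κ / 2 := by nlinarith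
  -- the parameters
  obtain ⟨ρ, hρ⟩ : ∃ ρ : ℝ, ρ = κ / r - ε := ⟨_, rfl⟩
  obtain ⟨lam, hlam⟩ : ∃ lam : ℝ, lam = (κ - ε / 4) / r := ⟨_, rfl⟩
  obtain ⟨L, hL⟩ : ∃ L : ℝ, L = 2 * r / κ := ⟨_, rfl⟩
  have hL0 : 0 < L := by rw [hL]; positivity
  have hL1 : 1 ≤ L := by
    rw [hL, le_div_iff₀ hκ]
    linarith
  have hρr : 1 ≤ ρ * L := by
    rw [hρ, hL]
    have h1 : (κ / r - ε) * (2 * r / κ) = 2 - ε * (2 * r) / κ := by field_simp
    rw [h1]
    have h2 : ε * (2 * r) / κ ≤ 1 := by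
      rw [div_le_one hκ]
      exact hεr'
    linarith
  have hρ0 : 0 ≤ ρ := by
    by_contra hcon
    push Not at hcon
    nlinarith
  have hρ1 : ρ + ε / 4 ≤ 1 := by
    rw [hρ]
    have : κ / (r : ℝ) ≤ 1 := by
      rw [div_le_one hr0]
      linarith
    linarith
  have hl0' : 0 < lam := by
    rw [hlam]
    exact div_pos (by linarith) hr0
  have hl0 : 0 ≤ lam := hl0'.le
  have hl : lam ≤ 1 / 2 := by
    rw [hlam, div_le_iff₀ hr0]
    nlinarith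
  have hd : ρ + ε / 4 - lam ≤ -(ε / 2) := by
    have h1 : lam = κ / r - ε / 4 / r := by
      rw [hlam]; field_simp
    have h2 : ε / 4 / r ≤ ε / 4 := div_le_self (by positivity) hr1
    rw [h1, hρ]
    linarith
  obtain ⟨Φ, hΦ⟩ : ∃ Φ : ℝ, Φ = (2 ^ (m + 1) * (m : ℝ) ^ 2 / ε) * Real.log (8 * L) := ⟨_, rfl⟩
  have hΦ0 : 0 ≤ Φ := by
    rw [hΦ]
    exact mul_nonneg (by positivity) (Real.log_nonneg (by linarith))
  obtain ⟨k0, hk0⟩ := sa_k r ⌊Φ⌋₊ (1 / 4 * ε ^ 2) (Real.exp (Φ * ε)) (by positivity)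
  refine ⟨k0, fun k hk => ?_⟩
  obtain ⟨hk, hkk⟩ := hk0 k hk
  refine ⟨max (max (8 * k ^ 2) 1) (max ⌈4 / ε⌉₊ ⌈2 * m * L⌉₊), fun H hH 𝒞 h𝒞 hquart => ?_⟩
  have hn1 : 8 * k ^ 2 ≤ H.card := (le_max_left _ _).trans ((le_max_left _ _).trans hH)
  have hn2 : 1 ≤ H.card := (le_max_right _ _).trans ((le_max_left _ _).trans hH)
  have hn3 : ⌈4 / ε⌉₊ ≤ H.card := (le_max_left _ _).trans ((le_max_right _ _).trans hH)
  have hn4 : ⌈2 * m * L⌉₊ ≤ H.card := (le_max_right _ _).trans ((le_max_right _ _).trans hH)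
  obtain ⟨n, hn⟩ : ∃ n : ℝ, n = (H.card : ℝ) := ⟨_, rfl⟩
  have hnp : 0 < n := by rw [hn]; exact_mod_cast hn2
  have hn1' : 8 * (k : ℝ) ^ 2 ≤ n := by rw [hn]; exact_mod_cast hn1
  have hn3' : 1 ≤ ε / 4 * n := by
    have h1 : 4 / ε ≤ n := by rw [hn]; exact (Nat.le_ceil _).trans (by exact_mod_cast hn3)
    rw [div_le_iff₀ hε] at h1
    linarith
  have hn4' : 2 * (m : ℝ) * L ≤ n := by rw [hn]; exact (Nat.le_ceil _).trans (by exact_mod_cast hn4)
  obtain ⟨R, hR⟩ : ∃ R : ℕ, R = ⌈ρ * n⌉₊ := ⟨_, rfl⟩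
  have hR1 : ρ * n ≤ R := by rw [hR]; exact Nat.le_ceil _
  have hR2 : (R : ℝ) ≤ (ρ + ε / 4) * n := by
    have h1 : (R : ℝ) < ρ * n + 1 := by rw [hR]; exact Nat.ceil_lt_add_one (by positivity)
    linarith
  have hR3 : n ≤ L * R := by
    have h1 : ρ * n * L ≤ R * L := mul_le_mul_of_nonneg_right hR1 hL0.le
    have h2 : n * 1 ≤ n * (ρ * L) := mul_le_mul_of_nonneg_left hρr hnp.le
    linarith
  have hR4 : 2 * m ≤ R := by
    have h1 : 2 * (m : ℝ) * L ≤ L * R := hn4'.trans hR3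
    have h2 : (2 : ℝ) * m ≤ R := by
      by_contra hcon
      push Not at hcon
      nlinarith
    exact_mod_cast h2
  have hRpos : (0 : ℝ) < R := by
    have : 0 < R := by omega
    exact_mod_cast this
  have hR5 : R ≤ H.card := by
    have h1 : (R : ℝ) ≤ n := by nlinarith
    rw [hn] at h1
    exact_mod_cast h1
  have hlog : (2 ^ (m + 1) * (m : ℝ) ^ 2 / ε) * Real.log (8 * H.card / R) ≤ Φ := by
    rw [hΦ]
    apply mul_le_mul_of_nonneg_left _ (by positivity)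
    apply Real.log_le_log
    · rw [← hn]; positivity
    · rw [← hn, div_le_iff₀ hRpos]
      linarith
  by_contra hcon
  push Not at hcon
  have hcont : ∀ i : Fin r, ∃ 𝒦 : Finset ℕ → Finset ℕ, (∀ F, 𝒦 F ⊆ H ∧ (𝒦 F).card ≤ R) ∧
      ∀ Y ⊆ H, 𝒞 i Y → ∃ F ⊆ Y, (F.card : ℝ) ≤ Φ ∧ Y ⊆ F ∪ 𝒦 F := by
    intro i
    have hbad : ∀ S ⊆ H, R ≤ S.card →
        (TY.gcount (fun B => 𝒞 i B) ∅ S m : ℝ) ≤ (1 - ε) * (S.card.choose m : ℝ) := by
      intro S hS hRS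
      have h1 : (κ / r - ε) * (H.card : ℝ) ≤ (S.card : ℝ) := by
        rw [← hρ, ← hn]
        exact hR1.trans (by exact_mod_cast hRS)
      have h2 := hcon i S hS h1
      unfold TY.gcount
      simp only [Finset.empty_union]
      exact h2.le
    obtain ⟨𝒦, h1, h2⟩ := cont2 (fun B => 𝒞 i B)
      (fun X Y hXY hY => h𝒞 i X Y hXY hY) H m R ε hε hε1 hm hR4 hR5 hbad
    refine ⟨𝒦, h1, fun Y hY hS => ?_⟩
    obtain ⟨F, hF1, hF2, hF3⟩ := h2 Y hY hS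
    exact ⟨F, hF1, hF2.trans hlog, hF3⟩
  choose 𝒦 h𝒦1 h𝒦2 using hcont
  rw [← hlam] at hquart
  have hmain := sa_count hk hε hl0' H 𝒞 R 𝒦 h𝒦1 h𝒦2 hquart
  rw [← hn] at hmain
  have hexp := sa_exp k hε hρ0 hl0 hl hΦ0 hd
  have hpos : (0 : ℝ) < 1 + ε := by linarith
  have hW : (n + ε * R) ^ k / (1 + ε) ^ ((k : ℝ) * lam - Φ) ≤
      n ^ k * (Real.exp (Φ * ε) * Real.exp (-(1 / 4 * ε ^ 2) * k)) := by
    have h1 : (n + ε * R) ^ k ≤ n ^ k * (1 + ε * (ρ + ε / 4)) ^ k := by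
      rw [← mul_pow]
      apply pow_le_pow_left₀ (by positivity)
      have := mul_le_mul_of_nonneg_left hR2 hε.le
      linarith
    calc (n + ε * R) ^ k / (1 + ε) ^ ((k : ℝ) * lam - Φ)
        ≤ n ^ k * (1 + ε * (ρ + ε / 4)) ^ k / (1 + ε) ^ ((k : ℝ) * lam - Φ) :=
          div_le_div_of_nonneg_right h1 (Real.rpow_nonneg hpos.le _)
      _ = n ^ k * ((1 + ε * (ρ + ε / 4)) ^ k / (1 + ε) ^ ((k : ℝ) * lam - Φ)) := by
          rw [mul_div_assoc]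
      _ ≤ n ^ k * (Real.exp (Φ * ε) * Real.exp (-(1 / 4 * ε ^ 2) * k)) :=
          mul_le_mul_of_nonneg_left hexp (by positivity)
  have hnk : 0 < n ^ k := by positivity
  have hq0 : 0 ≤ (r : ℝ) * ((⌊Φ⌋₊ + 1) * (k : ℝ) ^ ⌊Φ⌋₊) := by positivity
  have h1 := mul_le_mul_of_nonneg_left hW hq0
  have h2 := mul_le_mul_of_nonneg_left hkk hnk.le
  have h3 : (r : ℝ) * ((⌊Φ⌋₊ + 1) * (k : ℝ) ^ ⌊Φ⌋₊) *
      (n ^ k * (Real.exp (Φ * ε) * Real.exp (-(1 / 4 * ε ^ 2) * k))) ≤ n ^ k * (1 / 4) := by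
    refine le_trans (le_of_eq ?_) h2
    ring
  have h4 : (k : ℝ) ^ 2 * n ^ (k - 1) ≤ n ^ k * (1 / 8) := by
    have h7 : n ^ k = n * n ^ (k - 1) := by
      rw [← pow_succ']
      congr 1
      omega
    rw [h7]
    have h8 : 0 ≤ n ^ (k - 1) := by positivity
    have h9 : (k : ℝ) ^ 2 ≤ n * (1 / 8) := by linarith
    calc (k : ℝ) ^ 2 * n ^ (k - 1) ≤ n * (1 / 8) * n ^ (k - 1) := mul_le_mul_of_nonneg_right h9 h8
      _ = _ := by ring
  linarith

end Pool.Agent.H21.LA
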