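import Pool.Agent.H21.SH.P5

/-!
MP_8923e7_nt, project LA.  Densities of differences: one tenth.
-/

namespace Pool.Agent.H21.LA

open Finset Filter Pool.Agent.H21.SH

/-- the majorant -/
noncomputable def Gf (v : ℝ) : ℝ :=
  if v < 14 / 5 then 28 / 100000 * v ^ 2 / (14 / 5 - v)
  else (v - 14 / 5) + (if v = 14 / 5 then 14 / 5 else 28 / 100000 * v ^ 2 / (v - 14 / 5))

theorem ExGf : Ex [2, 3, 5, 7, 11, 13] Gf ≤ 47 / 1000 := by
  simp only [Ex, wl, Gf]
  norm_num

theorem Ex_bound2 (tl : List ℕ) (htl : ∀ p ∈ tl, p.Prime ∧ 17 ≤ p) (hnd : tl.Nodup) :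
    Ex ([2, 3, 5, 7, 11, 13] ++ tl) (fun v => max (v - 14 / 5) 0) ≤ 47 / 1000 := by
  have htl2 : ∀ p ∈ tl, 2 ≤ p := fun p hp => by have := (htl p hp).2; omega
  have h6 : ∀ p ∈ [2, 3, 5, 7, 11, 13], 2 ≤ p := by decide
  rw [Ex_append]
  have hsq := tail_sq tl htl hnd
  have hE1 := Ex_one tl
  have hEi := Ex_id tl htl2
  refine le_trans (Ex_mono _ h6 _ Gf ?_) ExGf
  intro v hv
  -- the quadratic bound
  have key : ∀ y : ℝ, 0 < y → ∀ a b : ℝ, (∀ u : ℝ, 0 ≤ u → max (v * u - 14 / 5) 0 ≤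
      (a + b * (u - 1)) + v ^ 2 * (u - 1) ^ 2 / (4 * y)) →
      Ex tl (fun u => max (v * u - 14 / 5) 0) ≤ a + 28 / 100000 * v ^ 2 / y := by
    intro y hy a b h
    have h1 : Ex tl (fun u => max (v * u - 14 / 5) 0) ≤
        Ex tl (fun u => (v ^ 2 / (4 * y)) * u ^ 2 +
          ((b - 2 * (v ^ 2 / (4 * y))) * u + (a - b + v ^ 2 / (4 * y)) * 1)) := by
      apply Ex_mono tl htl2
      intro u hu
      refine (h u hu).trans (le_of_eq ?_)
      field_simp
      ring
    refine h1.trans ?_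
    rw [Ex_add tl (fun u => (v ^ 2 / (4 * y)) * u ^ 2) (fun u =>
        ((b - 2 * (v ^ 2 / (4 * y))) * u + (a - b + v ^ 2 / (4 * y)) * 1)),
      Ex_add tl (fun u => (b - 2 * (v ^ 2 / (4 * y))) * u) (fun _ => (a - b + v ^ 2 / (4 * y)) * 1),
      Ex_smul tl (v ^ 2 / (4 * y)) (fun u => u ^ 2), Ex_smul tl (b - 2 * (v ^ 2 / (4 * y))) (fun u => u),
      Ex_smul tl (a - b + v ^ 2 / (4 * y)) (fun _ => 1), hE1, hEi]
    have h2 : 0 ≤ v ^ 2 / (4 * y) := by positivity
    have h3 : v ^ 2 / (4 * y) * Ex tl (fun u => u ^ 2) ≤ v ^ 2 / (4 * y) * (1 + 112 / 100000) :=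
      mul_le_mul_of_nonneg_left hsq h2
    have h4 : v ^ 2 / (4 * y) * (112 / 100000) = 28 / 100000 * v ^ 2 / y := by
      field_simp
      ring
    linarith
  unfold Gf
  by_cases h1 : v < 14 / 5
  · rw [if_pos h1]
    have h2 : 0 < 14 / 5 - v := by linarith
    have h3 := key (14 / 5 - v) h2 0 0 (by
      intro u _
      rw [zero_mul, add_zero, zero_add, le_div_iff₀ (by positivity)]
      rcases le_total (v * u - 14 / 5) 0 with h | h
      · rw [max_eq_right h, zero_mul]
        positivity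
      · rw [max_eq_left h]
        nlinarith [sq_nonneg (v * (u - 1) - 2 * (14 / 5 - v))])
    rw [zero_add] at h3
    exact h3
  · rw [if_neg h1]
    push Not at h1
    by_cases h2 : v = 14 / 5
    · rw [if_pos h2, h2, sub_self, zero_add]
      have h3 : Ex tl (fun u => max (14 / 5 * u - 14 / 5) 0) ≤ Ex tl (fun u => 14 / 5 * u) := by
        apply Ex_mono tl htl2
        intro u hu
        apply max_le
        · linarith
        · positivity
      rw [Ex_smul tl (14 / 5) (fun u => u), hEi, mul_one] at h3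
      exact h3
    · rw [if_neg h2]
      have h3 : 0 < v - 14 / 5 := by
        rcases lt_or_eq_of_le h1 with h | h
        · linarith
        · exact absurd h.symm h2
      exact key (v - 14 / 5) h3 (v - 14 / 5) v (by
        intro u _
        have e : (v - 14 / 5 + v * (u - 1)) = v * u - 14 / 5 := by ring
        rw [e]
        have h4 : 0 ≤ v ^ 2 * (u - 1) ^ 2 / (4 * (v - 14 / 5)) := by positivity
        apply max_le
        · linarith
        · have h5 : ∀ w z : ℝ, 0 < w → 0 ≤ w + z + z ^ 2 / (4 * w) := by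
            intro w z hw
            have e1 : w + z + z ^ 2 / (4 * w) = (2 * w + z) ^ 2 / (4 * w) := by
              field_simp
              ring
            rw [e1]
            positivity
          have h6 := h5 (v - 14 / 5) (v * (u - 1)) h3
          rw [mul_pow, e] at h6
          exact h6)

/-- the primes from 17 to k -/
private def p5tl (k : ℕ) : List ℕ := (List.range (k + 1)).filter (fun p => decide (p.Prime ∧ 17 ≤ p))

private theorem p5_tl_mem {k p : ℕ} : p ∈ p5tl k ↔ p < k + 1 ∧ p.Prime ∧ 17 ≤ p := by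
  unfold p5tl
  rw [List.mem_filter, List.mem_range, decide_eq_true_iff]

private theorem p5_tl_nodup (k : ℕ) : (p5tl k).Nodup := List.Nodup.filter _ List.nodup_range

private theorem p5_prime (k : ℕ) : ∀ p ∈ [2, 3, 5, 7, 11, 13] ++ p5tl k, p.Prime := by
  intro p hp
  rw [List.mem_append] at hp
  rcases hp with hp | hp
  · simp only [List.mem_cons, List.not_mem_nil, or_false] at hp
    rcases hp with rfl | rfl | rfl | rfl | rfl | rfl <;> norm_num
  · exact (p5_tl_mem.1 hp).2.1

private theorem p5_nodup (k : ℕ) : ([2, 3, 5, 7, 11, 13] ++ p5tl k).Nodup := by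
  rw [List.nodup_append]
  refine ⟨by decide, p5_tl_nodup k, ?_⟩
  intro a ha b hb hab
  subst hab
  have h1 := (p5_tl_mem.1 hb).2.2
  simp only [List.mem_cons, List.not_mem_nil, or_false] at ha
  omega

private theorem p5_mem {k p : ℕ} (hp : p.Prime) (hpk : p ≤ k) :
    p ∈ [2, 3, 5, 7, 11, 13] ++ p5tl k := by
  rw [List.mem_append]
  by_cases h : 17 ≤ p
  · exact Or.inr (p5_tl_mem.2 ⟨by omega, hp, h⟩)
  · left
    have h1 : p < 17 := by omega
    clear h hpk
    interval_cases p <;> first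
      | decide
      | (exfalso; revert hp; norm_num)

private theorem p5_period (g : ℕ → ℝ) (P : ℕ) (hg : ∀ d, g (d + P) = g d) (m : ℕ) :
    ∑ d ∈ range (P * m), g d = m * ∑ d ∈ range P, g d := by
  have hg2 : ∀ n d, g (P * n + d) = g d := by
    intro n
    induction n with
    | zero => intro d; rw [Nat.mul_zero, Nat.zero_add]
    | succ n ih =>
      intro d
      have e : P * (n + 1) + d = (P * n + d) + P := by ring
      rw [e, hg, ih]
  induction m with
  | zero => simp
  | succ m ih =>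
    rw [Nat.mul_succ, Finset.sum_range_add, ih]
    rw [Finset.sum_congr rfl fun d _ => hg2 m d]
    push_cast
    ring

private theorem p5_shift (g : ℕ → ℝ) (P : ℕ) (hg : ∀ d, g (d + P) = g d) (a : ℕ) :
    ∑ i ∈ range P, g (a + i) = ∑ i ∈ range P, g i := by
  induction a with
  | zero => simp
  | succ a ih =>
    have h1 : ∑ i ∈ range (P + 1), g (a + i) = ∑ i ∈ range P, g (a + i) + g (a + P) :=
      Finset.sum_range_succ _ _
    have h2 : ∑ i ∈ range (P + 1), g (a + i) = ∑ i ∈ range P, g (a + (i + 1)) + g (a + 0) :=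
      Finset.sum_range_succ' _ _
    have h3 : ∑ i ∈ range P, g (a + 1 + i) = ∑ i ∈ range P, g (a + (i + 1)) :=
      Finset.sum_congr rfl fun i _ => by rw [add_assoc, add_comm 1 i]
    rw [h3, ← ih]
    have h4 := hg a
    have h5 : g (a + 0) = g a := by rw [Nat.add_zero]
    linarith

private theorem p5_interval (g : ℕ → ℝ) (P : ℕ) (hg : ∀ d, g (d + P) = g d) (M m : ℕ) :
    ∑ d ∈ Ioc M (M + P * m), g d = m * ∑ d ∈ range P, g d := by
  have h1 : ∑ d ∈ Ioc M (M + P * m), g d = ∑ i ∈ range (P * m), g (M + 1 + i) := by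
    have h2 : Ioc M (M + P * m) = Ico (M + 1) (M + 1 + P * m) := by
      ext x
      rw [Finset.mem_Ioc, Finset.mem_Ico]
      omega
    rw [h2, Finset.sum_Ico_eq_sum_range]
    congr 1
    rw [Nat.add_sub_cancel_left]
  rw [h1, p5_period (fun i => g (M + 1 + i)) P (fun d => by
    show g (M + 1 + (d + P)) = g (M + 1 + d)
    rw [← add_assoc, hg]), p5_shift g P hg]

private theorem p5_wt_per (P d : ℕ) : wt P (d + P) = wt P d := by
  unfold wt RT
  have e : ∀ a, (a + (d + P)) % P = (a + d) % P := by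
    intro a
    rw [← add_assoc, Nat.add_mod_right]
  simp only [e]

open Classical in
theorem dens_gen2 (E : ℕ → Prop) (c : ℝ) (hc : c ≤ 1) (k : ℕ) (hk : 2 ≤ k) (hE : PairProp E c k)
    (η κ B : ℝ) (hη : 0 < η) (hB : ∀ tl : List ℕ, (∀ p ∈ tl, p.Prime ∧ 17 ≤ p) → tl.Nodup →
      Ex ([2, 3, 5, 7, 11, 13] ++ tl) (fun v => max (v - κ) 0) ≤ B) :
    ∃ C : ℝ, ∀ M X : ℕ,
      (c - η - B) * X - C ≤
        κ * (((Ioc M (M + X)).filter E).card : ℝ) := by
  obtain ⟨ps, hps⟩ : ∃ ps : List ℕ, ps = [2, 3, 5, 7, 11, 13] ++ p5tl k := ⟨_, rfl⟩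
  have hprime : ∀ p ∈ ps, p.Prime := by rw [hps]; exact p5_prime k
  have hnd : ps.Nodup := by rw [hps]; exact p5_nodup k
  obtain ⟨P, hPdef⟩ : ∃ P : ℕ, P = ps.prod := ⟨_, rfl⟩
  have hP : 0 < P := by
    rw [hPdef]
    apply List.prod_pos
    intro p hp
    exact (hprime p hp).pos
  have hdvd : ∀ p : ℕ, p.Prime → p ≤ k → p ∣ P := by
    intro p hp hpk
    rw [hPdef]
    apply List.dvd_prod
    rw [hps]
    exact p5_mem hp hpk
  obtain ⟨C0, hC0⟩ := block_min E c hc k hk hE P hP (red P)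
    (fun a ha => Finset.mem_range.1 (Finset.mem_filter.1 ha).1)
    (fun G hG hcard => adm_small k G hcard.le (fun p hp hpk => ⟨0, fun h hh hph => by
      rw [Nat.zero_add] at hph
      have h1 : (h % P).Coprime P := (Finset.mem_filter.1 (hG h hh)).2
      have h2 : p ∣ h % P := (Nat.dvd_mod_iff (hdvd p hp hpk)).2 hph
      exact Nat.not_coprime_of_dvd_of_dvd hp.one_lt h2 (hdvd p hp hpk) h1⟩)) η hη
  set R : ℝ := ((red P).card : ℝ) with hR
  have hR0 : 0 < R := by
    rw [hR, red_card]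
    exact_mod_cast Nat.totient_pos.2 hP
  have hPR : (0 : ℝ) < P := by exact_mod_cast hP
  have hExB : Ex ps (fun v => max (v - κ) 0) ≤ B := by
    rw [hps]
    exact hB (p5tl k) (fun p hp => (p5_tl_mem.1 hp).2) (p5_tl_nodup k)
  refine ⟨C0 * (P / R ^ 2) + P * B, fun M X => ?_⟩
  have hX0 : (0 : ℝ) ≤ X := Nat.cast_nonneg X
  set G : ℕ → ℝ := fun d => max (wt P d - κ) 0 with hG
  have hG0 : ∀ d, 0 ≤ G d := fun d => le_max_right _ _
  have hGper : ∀ d, G (d + P) = G d := by
    intro d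
    simp only [hG]
    rw [p5_wt_per]
  have hSum : ∑ d ∈ range P, G d = P * Ex ps (fun v => max (v - κ) 0) := by
    have h1 := mean_Ex ps hprime hnd (fun v => max (v - κ) 0)
    rw [← hPdef, div_eq_iff hPR.ne'] at h1
    rw [mul_comm]
    exact h1
  have hup1 : ∑ d ∈ Ioc M (M + X), G d ≤ (X + P) * B := by
    have h1 : Ioc M (M + X) ⊆ Ioc M (M + P * (X / P + 1)) := by
      intro d hd
      rw [Finset.mem_Ioc] at hd ⊢
      refine ⟨hd.1, hd.2.trans ?_⟩
      exact Nat.add_le_add_left (Nat.lt_mul_div_succ X hP).le M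
    calc ∑ d ∈ Ioc M (M + X), G d ≤ ∑ d ∈ Ioc M (M + P * (X / P + 1)), G d :=
          Finset.sum_le_sum_of_subset_of_nonneg h1 fun d _ _ => hG0 d
      _ = ((X / P + 1 : ℕ) : ℝ) * (P * Ex ps (fun v => max (v - κ) 0)) := by
          rw [p5_interval G P hGper, hSum]
      _ = (((X / P : ℕ) : ℝ) * P + P) * Ex ps (fun v => max (v - κ) 0) := by
          push_cast
          ring
      _ ≤ (X + P) * B := by
          have h2 : ((X / P : ℕ) : ℝ) * P ≤ X := by exact_mod_cast Nat.div_mul_le_self X P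
          have h3 : 0 ≤ Ex ps (fun v => max (v - κ) 0) := by
            have h4 : 0 ≤ ∑ d ∈ range P, G d := Finset.sum_nonneg fun d _ => hG0 d
            rw [hSum] at h4
            exact nonneg_of_mul_nonneg_right h4 hPR
          exact mul_le_mul (by linarith) hExB h3 (by linarith)
  have hup2 : ∑ d ∈ (Ioc M (M + X)).filter E, wt P d ≤
      κ * (((Ioc M (M + X)).filter E).card : ℝ) + (X + P) * B := by
    calc ∑ d ∈ (Ioc M (M + X)).filter E, wt P d ≤ ∑ d ∈ (Ioc M (M + X)).filter E, (κ + G d) := by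
          refine Finset.sum_le_sum fun d _ => ?_
          have h1 : wt P d - κ ≤ G d := le_max_left _ _
          linarith
      _ = κ * (((Ioc M (M + X)).filter E).card : ℝ) + ∑ d ∈ (Ioc M (M + X)).filter E, G d := by
          rw [Finset.sum_add_distrib, Finset.sum_const, nsmul_eq_mul, mul_comm]
      _ ≤ κ * (((Ioc M (M + X)).filter E).card : ℝ) + ∑ d ∈ Ioc M (M + X), G d := by
          have h1 : ∑ d ∈ (Ioc M (M + X)).filter E, G d ≤ ∑ d ∈ Ioc M (M + X), G d :=
            Finset.sum_le_sum_of_subset_of_nonneg (Finset.filter_subset E (Ioc M (M + X)))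
              fun d _ _ => hG0 d
          linarith
      _ ≤ _ := by gcongr
  have hlow : (c - η) * X - C0 * (P / R ^ 2) ≤ ∑ d ∈ (Ioc M (M + X)).filter E, wt P d := by
    have h1 := hC0 M X
    have h2 : ∑ d ∈ (Ioc M (M + X)).filter E, wt P d =
        (∑ d ∈ (Ioc M (M + X)).filter E, (RT P (red P) d : ℝ)) * (P / R ^ 2) := by
      rw [Finset.sum_mul]
      refine Finset.sum_congr rfl fun d _ => ?_
      unfold wt
      rw [hR]
      ring
    rw [h2]
    have h3 : 0 ≤ (P : ℝ) / R ^ 2 := by positivity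
    calc (c - η) * X - C0 * (P / R ^ 2) = ((c - η) * (R ^ 2 / P) * X - C0) * (P / R ^ 2) := by
          field_simp
      _ ≤ _ := mul_le_mul_of_nonneg_right h1 h3
  linarith

open Classical in
theorem dens_10 (E : ℕ → Prop) (k : ℕ) (hk : 2 ≤ k) (hE : PairProp E (333 / 1000) k) :
    ∃ X₀ : ℕ, ∀ X : ℕ, X₀ ≤ X → ∀ M : ℕ,
      (X : ℝ) / 10 ≤ (((Ioc M (M + X)).filter E).card : ℝ) := by
  obtain ⟨C, hC⟩ := dens_gen2 E (333 / 1000) (by norm_num) k hk hE (5 / 10000) (14 / 5) (47 / 1000)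
    (by norm_num) Ex_bound2
  obtain ⟨X0, hX0⟩ := exists_nat_ge (C / (5 / 1000 : ℝ))
  refine ⟨X0, fun X hX M => ?_⟩
  have h1 := hC M X
  have h3 : (C / (5 / 1000 : ℝ)) ≤ X := hX0.trans (by exact_mod_cast hX)
  rw [div_le_iff₀ (by norm_num)] at h3
  have h4 : (0 : ℝ) ≤ X := Nat.cast_nonneg X
  nlinarith

end Pool.Agent.H21.LA
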