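import Pool.Agent.H21.LA.Tf
import Pool.Agent.H21.CP.Qc

/-!
MP_8923e7_nt, project LA.  Enrichment: the sets of the covering of almost every `k`-tuple have all their
`m`-subsets `B` shattered together with almost all `l`-subsets `B'` of `H` as companions with property `Q`.
-/

namespace Pool.Agent.H21.LA

open Finset Pool.Agent.H21.QT Pool.Agent.H21.CP

/-- every subset `F` of `B` is the set of the primes of colour `i` for infinitely many `N` for which all the
elements of `N + B'` have property `Q` -/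
def Real2 (Q : ℕ → Prop) {r : ℕ} (c : ℕ → Fin r) (i : Fin r) (B B' : Finset ℕ) : Prop :=
  ∀ F : Finset ℕ, F ⊆ B → {N : ℕ | (∀ b ∈ B, ((N + b).Prime ∧ c (N + b) = i) ↔ b ∈ F) ∧
    ∀ b ∈ B', Q (N + b)}.Infinite

open Classical in
/-- for at least `(1-ε) C(|H|, l)` of the `l`-subsets `B'` of `H` -/
def Shat2 (Q : ℕ → Prop) {r : ℕ} (c : ℕ → Fin r) (i : Fin r) (H : Finset ℕ) (l : ℕ) (ε : ℝ)
    (B : Finset ℕ) : Prop :=
  (1 - ε) * (H.card.choose l : ℝ) ≤
    (((powersetCard l H).filter (fun B' => Real2 Q c i B B')).card : ℝ)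

/-- the joined tuple -/
def Psi {k k1 L l : ℕ} (e : Fin k1 ≃ Fin k ⊕ (Fin L × Fin l))
    (p : (Fin k → ℕ) × (Fin L → Fin l → ℕ)) : Fin k1 → ℕ :=
  fun x => Sum.elim p.1 (fun q => p.2 q.1 q.2) (e x)

theorem Psi_inl {k k1 L l : ℕ} (e : Fin k1 ≃ Fin k ⊕ (Fin L × Fin l))
    (p : (Fin k → ℕ) × (Fin L → Fin l → ℕ)) (j : Fin k) : Psi e p (e.symm (Sum.inl j)) = p.1 j := by
  simp [Psi]

theorem Psi_inr {k k1 L l : ℕ} (e : Fin k1 ≃ Fin k ⊕ (Fin L × Fin l))
    (p : (Fin k → ℕ) × (Fin L → Fin l → ℕ)) (t : Fin L) (s : Fin l) :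
    Psi e p (e.symm (Sum.inr (t, s))) = p.2 t s := by
  simp [Psi]

theorem Psi_injective {k k1 L l : ℕ} (e : Fin k1 ≃ Fin k ⊕ (Fin L × Fin l)) :
    Function.Injective (Psi e) := by
  intro p q h
  refine Prod.ext ?_ ?_
  · funext j
    rw [← Psi_inl e p j, ← Psi_inl e q j, h]
  · funext t s
    rw [← Psi_inr e p t s, ← Psi_inr e q t s, h]

theorem Psi_mem {k k1 L l : ℕ} (e : Fin k1 ≃ Fin k ⊕ (Fin L × Fin l))
    (p : (Fin k → ℕ) × (Fin L → Fin l → ℕ)) (H : Finset ℕ) (h1 : ∀ j, p.1 j ∈ H)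
    (h2 : ∀ t s, p.2 t s ∈ H) (x : Fin k1) : Psi e p x ∈ H := by
  unfold Psi
  rcases h : e x with j | q
  · exact h1 j
  · exact h2 q.1 q.2

/-- `Real2` from `ReaQ` -/
theorem real2_of_reaQ (Q : ℕ → Prop) {r k k1 L l : ℕ} (c : ℕ → Fin r)
    (e : Fin k1 ≃ Fin k ⊕ (Fin L × Fin l)) (p : (Fin k → ℕ) × (Fin L → Fin l → ℕ))
    (hinj : Function.Injective (Psi e p)) (i : Fin r) (E : Finset (Fin k1))
    (hE : ReaQ Q c (fun x => ((Psi e p x : ℕ) : ℤ)) i E) (J : Finset (Fin k))
    (hJ : ∀ j ∈ J, e.symm (Sum.inl j) ∈ E) (t : Fin L) :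
    Real2 Q c i (J.image p.1) (univ.image (p.2 t)) := by
  classical
  intro F hF
  have h1 := hE (E.filter (fun x => Psi e p x ∈ F ∨ Psi e p x ∈ univ.image (p.2 t)))
    (filter_subset _ _)
  refine h1.mono ?_
  rintro N ⟨hN1, hN2⟩
  constructor
  · intro b hb
    obtain ⟨j, hj, rfl⟩ := mem_image.1 hb
    have h2 := hN1 (e.symm (Sum.inl j))
    unfold PC at h2
    simp only at h2
    have h3 : ((N : ℤ) + ((Psi e p (e.symm (Sum.inl j)) : ℕ) : ℤ)).toNat = N + p.1 j := by
      rw [Psi_inl]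
      omega
    rw [h3] at h2
    rw [h2, mem_filter, Psi_inl]
    constructor
    · rintro ⟨_, h | h⟩
      · exact h
      · exfalso
        obtain ⟨s, _, hs⟩ := mem_image.1 h
        rw [← Psi_inr e p t s, ← Psi_inl e p j] at hs
        have h4 := e.symm.injective (hinj hs)
        exact absurd h4 (by simp)
    · intro h
      exact ⟨hJ j hj, Or.inl h⟩
  · intro b hb
    obtain ⟨s, _, rfl⟩ := mem_image.1 hb
    have h2 := hN2 (e.symm (Sum.inr (t, s))) (by
      intro h
      rw [mem_filter]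
      refine ⟨h, Or.inr ?_⟩
      rw [Psi_inr]
      exact mem_image_of_mem _ (mem_univ _))
    have h3 : ((N : ℤ) + ((Psi e p (e.symm (Sum.inr (t, s))) : ℕ) : ℤ)).toNat = N + p.2 t s := by
      rw [Psi_inr]
      omega
    simp only [h3] at h2
    exact h2

open Classical in
/-- the cover of the first `k` indices -/
theorem cov_pre {r k k1 L l : ℕ} (lam : ℝ) (e : Fin k1 ≃ Fin k ⊕ (Fin L × Fin l))
    (w : Fin r → Finset (Fin k1) → ℝ) (hw0 : ∀ i E, 0 ≤ w i E) (hw1 : ∑ i, ∑ E, w i E ≤ 1)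
    (hw2 : ∀ j, lam ≤ ∑ i, ∑ E ∈ univ.filter (fun E => j ∈ E), w i E)
    (𝒞 : Fin r → Finset ℕ → Prop) (a : Fin k → ℕ)
    (h : ∀ i E, 0 < w i E → 𝒞 i ((univ.filter (fun j : Fin k => e.symm (Sum.inl j) ∈ E)).image a)) :
    Cov lam 𝒞 a := by
  obtain ⟨pre, hpre⟩ : ∃ pre : Finset (Fin k1) → Finset (Fin k), ∀ E,
    pre E = univ.filter (fun j : Fin k => e.symm (Sum.inl j) ∈ E) := ⟨_, fun _ => rfl⟩
  refine ⟨fun i E' => ∑ E ∈ univ.filter (fun E => pre E = E'), w i E, ?_, ?_, ?_, ?_⟩
  · intro i E'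
    exact sum_nonneg fun E _ => hw0 i E
  · refine le_trans (le_of_eq ?_) hw1
    refine sum_congr rfl fun i _ => ?_
    exact sum_fiberwise (univ : Finset (Finset (Fin k1))) pre (w i)
  · intro j
    refine (hw2 (e.symm (Sum.inl j))).trans (le_of_eq ?_)
    refine sum_congr rfl fun i _ => ?_
    have h1 : ∀ E' ∈ univ.filter (fun E' : Finset (Fin k) => j ∈ E'),
        ∑ E ∈ univ.filter (fun E => pre E = E'), w i E =
        ∑ E ∈ (univ.filter (fun E : Finset (Fin k1) => e.symm (Sum.inl j) ∈ E)).filter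
          (fun E => pre E = E'), w i E := by
      intro E' hE'
      rw [mem_filter] at hE'
      apply sum_congr _ fun _ _ => rfl
      ext E
      simp only [mem_filter, mem_univ, true_and]
      constructor
      · intro h2
        refine ⟨?_, h2⟩
        have h3 : j ∈ pre E := by rw [h2]; exact hE'.2
        rw [hpre, mem_filter] at h3
        exact h3.2
      · exact fun h2 => h2.2
    rw [sum_congr rfl h1]
    symm
    apply sum_fiberwise_of_maps_to
    intro E hE
    rw [mem_filter] at hE ⊢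
    refine ⟨mem_univ _, ?_⟩
    rw [hpre, mem_filter]
    exact ⟨mem_univ _, hE.2⟩
  · intro i E' hpos
    obtain ⟨E, hE, hw⟩ : ∃ E ∈ univ.filter (fun E => pre E = E'), 0 < w i E := by
      by_contra hcon
      push Not at hcon
      have h2 : ∑ E ∈ univ.filter (fun E => pre E = E'), w i E ≤ 0 := sum_nonpos hcon
      linarith
    rw [mem_filter] at hE
    rw [← hE.2, hpre]
    exact h i E hw

open Classical in
/-- injective tuples with image in a family of `l`-sets -/
theorem inj_count (l : ℕ) (H : Finset ℕ) (P : Finset ℕ → Prop) (x : ℝ)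
    (hP : (((powersetCard l H).filter P).card : ℝ) ≤ x * (H.card.choose l : ℝ)) (hx : 0 ≤ x) :
    (((Fintype.piFinset (fun _ : Fin l => H)).filter
      (fun b => Function.Injective b ∧ P (univ.image b))).card : ℝ) ≤ x * (H.card : ℝ) ^ l := by
  have h1 : (Fintype.piFinset (fun _ : Fin l => H)).filter
      (fun b => Function.Injective b ∧ P (univ.image b)) ⊆
      ((powersetCard l H).filter P).biUnion (fun B => (Fintype.piFinset (fun _ : Fin l => H)).filter
        (fun b => Function.Injective b ∧ univ.image b = B)) := by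
    intro b hb
    rw [mem_filter, Fintype.mem_piFinset] at hb
    rw [mem_biUnion]
    refine ⟨univ.image b, ?_, ?_⟩
    · rw [mem_filter, mem_powersetCard]
      refine ⟨⟨?_, ?_⟩, hb.2.2⟩
      · intro y hy
        obtain ⟨j, _, rfl⟩ := mem_image.1 hy
        exact hb.1 j
      · rw [card_image_of_injective _ hb.2.1, card_univ, Fintype.card_fin]
    · rw [mem_filter, Fintype.mem_piFinset]
      exact ⟨hb.1, hb.2.1, rfl⟩
  have h2 : ∀ B ∈ (powersetCard l H).filter P, ((Fintype.piFinset (fun _ : Fin l => H)).filter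
        (fun b => Function.Injective b ∧ univ.image b = B)).card ≤ l.factorial := by
    intro B hB
    rw [mem_filter, mem_powersetCard] at hB
    have h3 := tf_count H B (univ : Finset (Fin l)) ((Fintype.piFinset (fun _ : Fin l => H)).filter
        (fun b => Function.Injective b ∧ univ.image b = B)) (by
          intro b hb
          rw [mem_filter, Fintype.mem_piFinset] at hb
          exact ⟨hb.2.1, hb.1, hb.2.2⟩) l (by rw [card_univ, Fintype.card_fin]) hB.1.2
    simpa using h3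
  have h3 := (card_le_card h1).trans (card_biUnion_le_card_mul _ _ _ h2)
  have h4 : (((Fintype.piFinset (fun _ : Fin l => H)).filter
      (fun b => Function.Injective b ∧ P (univ.image b))).card : ℝ) ≤
      (((powersetCard l H).filter P).card : ℝ) * (l.factorial : ℝ) := by exact_mod_cast h3
  refine h4.trans ?_
  have hfac : (0 : ℝ) < (l.factorial : ℝ) := by exact_mod_cast l.factorial_pos
  have h5 : ((H.card.choose l : ℕ) : ℝ) ≤ (H.card : ℝ) ^ l / (l.factorial : ℝ) :=
    Nat.choose_le_pow_div l H.card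
  calc (((powersetCard l H).filter P).card : ℝ) * (l.factorial : ℝ)
      ≤ x * (H.card.choose l : ℝ) * (l.factorial : ℝ) := mul_le_mul_of_nonneg_right hP hfac.le
    _ ≤ x * ((H.card : ℝ) ^ l / (l.factorial : ℝ)) * (l.factorial : ℝ) := by
        apply mul_le_mul_of_nonneg_right _ hfac.le
        exact mul_le_mul_of_nonneg_left h5 hx
    _ = x * (H.card : ℝ) ^ l := by field_simp

end Pool.Agent.H21.LA
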