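import Pool.Agent.H21.LA.La
import Pool.Agent.H21.CP.Med

/-!
MP_8923e7_nt.  Near cliques with the constant `13/50`, for pairs: every large admissible set `H` contains, for every
colouring with `r` colours, a set `S` of at least `(13/(50 r) - ε)|H|` elements such that all but `ε |H|^2` of the pairs
`x < y` of elements of `S` have `N + x`, `N + y` both prime of colour `i` for infinitely many `N`.
-/

namespace Pool.Agent.H21.LA

open Finset Pool.Agent.H21.CP

open Classical in
theorem near_pairs (r : ℕ) (ε : ℝ) (hε : 0 < ε) : ∃ K : ℕ, ∀ H : Finset ℕ,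
    (∀ p : ℕ, p.Prime → ∃ a : ℕ, ∀ h ∈ H, ¬ p ∣ a + h) → K ≤ H.card → ∀ c : ℕ → Fin r,
    ∃ (i : Fin r) (S : Finset ℕ), S ⊆ H ∧
      (13 / (50 * (r : ℝ)) - ε) * (H.card : ℝ) ≤ (S.card : ℝ) ∧
      (((S ×ˢ S).filter (fun v => v.1 < v.2 ∧
        ¬ {N : ℕ | ((N + v.1).Prime ∧ c (N + v.1) = i) ∧
          ((N + v.2).Prime ∧ c (N + v.2) = i)}.Infinite)).card : ℝ) ≤ ε * (H.card : ℝ) ^ 2 := by
  rcases Nat.eq_zero_or_pos r with hr | hr
  · subst hr
    exact ⟨0, fun H _ _ c => (c 0).elim0⟩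
  have hr0 : (0 : ℝ) < r := by exact_mod_cast hr
  have hr1 : (1 : ℝ) ≤ r := by exact_mod_cast hr
  obtain ⟨e, he⟩ : ∃ e : ℝ, e = min ε ((13 / 50) / (2 * (r : ℝ))) := ⟨_, rfl⟩
  have he0 : 0 < e := by rw [he]; exact lt_min hε (by positivity)
  have heε : e ≤ ε := by rw [he]; exact min_le_left _ _
  have her : e ≤ (13 / 50) / (2 * (r : ℝ)) := by rw [he]; exact min_le_right _ _
  have he1 : e < 1 := by
    refine her.trans_lt ?_
    rw [div_lt_one (by positivity)]
    linarith
  obtain ⟨K, hK⟩ := la_clique (13 / 50) (by norm_num) (by norm_num) Q2 Q2_prime med r 2 0 hr le_rfl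
    e he0 her
  refine ⟨K, fun H hH hc c => ?_⟩
  obtain ⟨i, S, hS, h1, h2⟩ := hK H hH hc c
  refine ⟨i, S, hS, ?_, ?_⟩
  · refine le_trans ?_ h1
    apply mul_le_mul_of_nonneg_right _ (Nat.cast_nonneg _)
    rw [div_div]
    linarith
  · set Bd := (S ×ˢ S).filter (fun v => v.1 < v.2 ∧
        ¬ {N : ℕ | ((N + v.1).Prime ∧ c (N + v.1) = i) ∧
          ((N + v.2).Prime ∧ c (N + v.2) = i)}.Infinite) with hBd
    set G := (powersetCard 2 S).filter (fun B => Shat2 Q2 c i H 0 e B) with hG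
    have h3 : Bd.card ≤ (powersetCard 2 S \ G).card := by
      apply card_le_card_of_injOn (fun v => {v.1, v.2})
      · intro v hv
        rw [mem_coe, hBd, mem_filter, mem_product] at hv
        rw [mem_coe, mem_sdiff, mem_powersetCard]
        refine ⟨⟨?_, card_pair hv.2.1.ne⟩, ?_⟩
        · intro x hx
          simp only [mem_insert, mem_singleton] at hx
          rcases hx with rfl | rfl
          · exact hv.1.1
          · exact hv.1.2
        · intro hmem
          rw [hG, mem_filter] at hmem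
          have h4 := hmem.2
          unfold Shat2 at h4
          apply hv.2.2
          have h5 : ((powersetCard 0 H).filter (fun B' => Real2 Q2 c i {v.1, v.2} B')).Nonempty := by
            rw [nonempty_iff_ne_empty]
            intro h6
            rw [h6, card_empty, Nat.cast_zero, Nat.choose_zero_right, Nat.cast_one, mul_one] at h4
            linarith
          obtain ⟨B', hB'⟩ := h5
          rw [mem_filter] at hB'
          have h6 := hB'.2
          unfold Real2 at h6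
          refine (h6 {v.1, v.2} Subset.rfl).mono ?_
          intro N hN
          have h7 := hN.1
          exact ⟨(h7 v.1 (by simp)).2 (by simp), (h7 v.2 (by simp)).2 (by simp)⟩
      · intro v hv w hw hvw
        rw [mem_coe, hBd, mem_filter] at hv hw
        have h4 := hv.2.1
        have h5 := hw.2.1
        simp only at hvw
        have h6 : v.1 ∈ ({w.1, w.2} : Finset ℕ) := by rw [← hvw]; simp
        have h7 : v.2 ∈ ({w.1, w.2} : Finset ℕ) := by rw [← hvw]; simp
        simp only [mem_insert, mem_singleton] at h6 h7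
        apply Prod.ext <;> omega
    have h4 : (powersetCard 2 S \ G).card + G.card = (powersetCard 2 S).card :=
      card_sdiff_add_card_eq_card (filter_subset _ _)
    rw [card_powersetCard] at h4
    have h5 : (Bd.card : ℝ) + (G.card : ℝ) ≤ (S.card.choose 2 : ℝ) := by
      have : Bd.card + G.card ≤ S.card.choose 2 := by omega
      exact_mod_cast this
    have h6 : (S.card.choose 2 : ℝ) ≤ (H.card : ℝ) ^ 2 := by
      have h7 : S.card.choose 2 ≤ H.card ^ 2 :=
        (Nat.choose_le_pow _ _).trans (Nat.pow_le_pow_left (card_le_card hS) 2)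
      exact_mod_cast h7
    have h8 : (0 : ℝ) ≤ (S.card.choose 2 : ℝ) := Nat.cast_nonneg _
    have h9 : (Bd.card : ℝ) ≤ e * (S.card.choose 2 : ℝ) := by
      have h2' : (1 - e) * (S.card.choose 2 : ℝ) ≤ (G.card : ℝ) := h2
      linarith
    calc (Bd.card : ℝ) ≤ e * (S.card.choose 2 : ℝ) := h9
      _ ≤ ε * (S.card.choose 2 : ℝ) := mul_le_mul_of_nonneg_right heε h8
      _ ≤ ε * (H.card : ℝ) ^ 2 := mul_le_mul_of_nonneg_left h6 hε.le

/-- `d` is the difference of infinitely many pairs of primes of the same colour -/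
def PD {r : ℕ} (c : ℕ → Fin r) (d : ℕ) : Prop :=
  ∃ i : Fin r, {N : ℕ | (N.Prime ∧ c N = i) ∧ ((N + d).Prime ∧ c (N + d) = i)}.Infinite

open Classical in
theorem near_pairs_D (r : ℕ) (ε : ℝ) (hε : 0 < ε) : ∃ K : ℕ, ∀ H : Finset ℕ,
    (∀ p : ℕ, p.Prime → ∃ a : ℕ, ∀ h ∈ H, ¬ p ∣ a + h) → K ≤ H.card → ∀ c : ℕ → Fin r,
    ∃ S : Finset ℕ, S ⊆ H ∧ (13 / (50 * (r : ℝ)) - ε) * (H.card : ℝ) ≤ (S.card : ℝ) ∧
      (((S ×ˢ S).filter (fun v => v.1 < v.2 ∧ ¬ PD c (v.2 - v.1))).card : ℝ) ≤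
        ε * (H.card : ℝ) ^ 2 := by
  obtain ⟨K, hK⟩ := near_pairs r ε hε
  refine ⟨K, fun H hH hc c => ?_⟩
  obtain ⟨i, S, hS, h1, h2⟩ := hK H hH hc c
  refine ⟨S, hS, h1, le_trans ?_ h2⟩
  have h3 : (S ×ˢ S).filter (fun v => v.1 < v.2 ∧ ¬ PD c (v.2 - v.1)) ⊆
      (S ×ˢ S).filter (fun v => v.1 < v.2 ∧
        ¬ {N : ℕ | ((N + v.1).Prime ∧ c (N + v.1) = i) ∧
          ((N + v.2).Prime ∧ c (N + v.2) = i)}.Infinite) := by
    intro v hv
    rw [mem_filter] at hv ⊢
    refine ⟨hv.1, hv.2.1, fun hinf => hv.2.2 ⟨i, ?_⟩⟩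
    have h4 := hinf.image (f := fun N => N + v.1) (fun a _ b _ h => Nat.add_right_cancel h)
    refine h4.mono ?_
    rintro _ ⟨N, ⟨hN1, hN2⟩, rfl⟩
    have h5 : N + v.1 + (v.2 - v.1) = N + v.2 := by
      have := hv.2.1
      omega
    simp only [Set.mem_setOf_eq]
    rw [h5]
    exact ⟨hN1, hN2⟩
  exact_mod_cast card_le_card h3

end Pool.Agent.H21.LA
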