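import Pool.Agent.H21.QT.Hb
import Pool.Agent.H21.QT.Th

/-!
MP_8923e7_nt, project LA (large admissible sets).  Transfer from `k`-tuples of elements of a finite set `H` to
the `m`-subsets of `H`, and the abstract form of the theorem on the number of good `m`-subsets.
-/

namespace Pool.Agent.H21.LA

open Finset Pool.Agent.H21.QT

/-- weights on the pairs `(i, E)` with `E.image a` in the family `𝒞 i`, of total weight at most `1`, which cover
every index with weight at least `lam` -/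
def Cov (lam : ℝ) {r k : ℕ} (𝒞 : Fin r → Finset ℕ → Prop) (a : Fin k → ℕ) : Prop :=
  ∃ w : Fin r → Finset (Fin k) → ℝ, (∀ i E, 0 ≤ w i E) ∧ ∑ i, ∑ E, w i E ≤ 1 ∧
    (∀ j, lam ≤ ∑ i, ∑ E ∈ univ.filter (fun E => j ∈ E), w i E) ∧
    ∀ i E, 0 < w i E → 𝒞 i (E.image a)

/-- number of the tuples that map `J` bijectively onto `B` -/
theorem tf_count {k : ℕ} (H B : Finset ℕ) (J : Finset (Fin k)) (S : Finset (Fin k → ℕ))
    (hS : ∀ a ∈ S, Function.Injective a ∧ (∀ j, a j ∈ H) ∧ J.image a = B) (m : ℕ) (hJ : J.card = m)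
    (hB : B.card = m) : S.card ≤ m.factorial * H.card ^ (k - m) := by
  classical
  have hcard : Fintype.card ((J ↪ B) × ((Jᶜ : Finset (Fin k)) → H)) = m.factorial * H.card ^ (k - m) := by
    rw [Fintype.card_prod, Fintype.card_embedding_eq, Fintype.card_fun, Fintype.card_coe, Fintype.card_coe,
      Fintype.card_coe, Fintype.card_coe, hJ, hB, Nat.descFactorial_self, card_compl, Fintype.card_fin, hJ]
  rw [← hcard, ← Fintype.card_coe S]
  apply Fintype.card_le_of_injective (fun a : S =>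
    ((⟨fun j => ⟨a.1 j, by
        have := (hS a.1 a.2).2.2
        rw [← this]
        exact mem_image_of_mem _ j.2⟩, fun x y hxy => by
        have h1 : a.1 x = a.1 y := congrArg Subtype.val hxy
        exact Subtype.ext ((hS a.1 a.2).1 h1)⟩ : J ↪ B),
      (fun j : (Jᶜ : Finset (Fin k)) => (⟨a.1 j, (hS a.1 a.2).2.1 j⟩ : H))))
  intro a b hab
  apply Subtype.ext
  funext j
  rw [Prod.mk.injEq] at hab
  by_cases hj : j ∈ J
  · have h1 := congrArg (fun e : J ↪ B => ((e ⟨j, hj⟩ : B) : ℕ)) hab.1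
    exact h1
  · have h1 := congrFun hab.2 ⟨j, mem_compl.2 hj⟩
    exact congrArg Subtype.val h1

theorem tf_noninj {k : ℕ} (H : Finset ℕ) [DecidablePred fun a : Fin k → ℕ => ¬ Function.Injective a] :
    ((Fintype.piFinset (fun _ : Fin k => H)).filter (fun a => ¬ Function.Injective a)).card ≤
      k ^ 2 * H.card ^ (k - 1) := by
  classical
  have h1 := noninj (fun _ : Fin k => H.image (Nat.cast : ℕ → ℤ)) (n := H.card)
    (fun _ => card_image_le)
  refine le_trans ?_ h1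
  apply card_le_card_of_injOn (fun a => fun j => ((a j : ℕ) : ℤ))
  · intro a ha
    have ha' := mem_filter.1 (mem_coe.1 ha)
    apply mem_coe.2
    rw [mem_filter]
    constructor
    · rw [Fintype.mem_piFinset]
      intro j
      exact mem_image_of_mem _ ((Fintype.mem_piFinset.1 ha'.1) j)
    · intro hinj
      apply ha'.2
      intro x y hxy
      apply hinj
      simp only [hxy]
  · intro a _ b _ hab
    funext j
    have := congrFun hab j
    simp only at this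
    exact_mod_cast this

open Classical in
/-- the number of good injective tuples -/
theorem gd_low {k : ℕ} (hk : 1 ≤ k) (H : Finset ℕ) (P : (Fin k → ℕ) → Prop) (θ : ℝ)
    (hP : (((Fintype.piFinset (fun _ : Fin k => H)).filter (fun a => ¬ P a)).card : ℝ) ≤
      θ * (H.card : ℝ) ^ k) (hH : 1 ≤ H.card) (hθ : (k : ℝ) ^ 2 ≤ θ * H.card) :
    (1 - 2 * θ) * (H.card : ℝ) ^ k ≤ (((Fintype.piFinset (fun _ : Fin k => H)).filter
      (fun a => P a ∧ Function.Injective a)).card : ℝ) := by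
  set Ω := Fintype.piFinset (fun _ : Fin k => H) with hΩ
  have hΩc : Ω.card = H.card ^ k := by
    rw [hΩ, Fintype.card_piFinset]
    simp
  have h1 : Ω ⊆ Ω.filter (fun a => P a ∧ Function.Injective a) ∪
      (Ω.filter (fun a => ¬ P a) ∪ Ω.filter (fun a => ¬ Function.Injective a)) := by
    intro a ha
    rw [mem_union, mem_union, mem_filter, mem_filter, mem_filter]
    by_cases h1 : P a
    · by_cases h2 : Function.Injective a
      · exact Or.inl ⟨ha, h1, h2⟩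
      · exact Or.inr (Or.inr ⟨ha, h2⟩)
    · exact Or.inr (Or.inl ⟨ha, h1⟩)
  have h2 := (card_le_card h1).trans ((card_union_le _ _).trans
    (Nat.add_le_add_left (card_union_le _ _) _))
  have h3 : ((H.card : ℝ)) ^ k ≤ ((Ω.filter (fun a => P a ∧ Function.Injective a)).card : ℝ) +
      (((Ω.filter (fun a => ¬ P a)).card : ℝ) +
        ((Ω.filter (fun a => ¬ Function.Injective a)).card : ℝ)) := by
    have h4 : ((Ω.card : ℕ) : ℝ) ≤ (((Ω.filter (fun a => P a ∧ Function.Injective a)).card +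
        ((Ω.filter (fun a => ¬ P a)).card +
          (Ω.filter (fun a => ¬ Function.Injective a)).card) : ℕ) : ℝ) := by
      exact_mod_cast h2
    rw [hΩc] at h4
    push_cast at h4
    exact h4
  have h5 : ((Ω.filter (fun a => ¬ Function.Injective a)).card : ℝ) ≤
      (k : ℝ) ^ 2 * (H.card : ℝ) ^ (k - 1) := by exact_mod_cast tf_noninj H
  have hn0 : (0 : ℝ) < H.card := by exact_mod_cast hH
  have h6 : (k : ℝ) ^ 2 * (H.card : ℝ) ^ (k - 1) ≤ θ * (H.card : ℝ) ^ k := by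
    have h7 : (H.card : ℝ) ^ k = H.card * (H.card : ℝ) ^ (k - 1) := by
      rw [← pow_succ']
      congr 1
      omega
    rw [h7, ← mul_assoc]
    exact mul_le_mul_of_nonneg_right hθ (by positivity)
  linarith

open Classical in
theorem transfer {k m : ℕ} (hmk : m ≤ k) (H : Finset ℕ) (hH : 1 ≤ H.card)
    (𝒢 : Finset (Finset ℕ)) (h𝒢 : ∀ B ∈ 𝒢, B.card = m) (Gd : Finset (Fin k → ℕ))
    (hGd : ∀ a ∈ Gd, Function.Injective a ∧ ∀ j, a j ∈ H) (β θ : ℝ) (hβ : 0 ≤ β) (hθ : θ ≤ 1)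
    (hlow : ∀ a ∈ Gd, β * (k.choose m : ℝ) ≤
      (((powersetCard m (univ : Finset (Fin k))).filter (fun J => J.image a ∈ 𝒢)).card : ℝ))
    (hcard : (1 - θ) * (H.card : ℝ) ^ k ≤ (Gd.card : ℝ)) :
    (1 - θ) * β * (H.card.choose m : ℝ) ≤ (𝒢.card : ℝ) := by
  set n := H.card with hn
  have hnR : (1 : ℝ) ≤ n := by exact_mod_cast hH
  have hn0 : (0 : ℝ) < n := by linarith
  have hup : ∑ a ∈ Gd, ((powersetCard m (univ : Finset (Fin k))).filter
      (fun J => J.image a ∈ 𝒢)).card ≤ k.choose m * (𝒢.card * (m.factorial * n ^ (k - m))) := by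
    calc ∑ a ∈ Gd, ((powersetCard m (univ : Finset (Fin k))).filter (fun J => J.image a ∈ 𝒢)).card
        = ∑ a ∈ Gd, ∑ J ∈ powersetCard m (univ : Finset (Fin k)),
            (if J.image a ∈ 𝒢 then 1 else 0) := by
          apply sum_congr rfl
          intro a _
          rw [card_filter]
      _ = ∑ J ∈ powersetCard m (univ : Finset (Fin k)), ∑ a ∈ Gd,
            (if J.image a ∈ 𝒢 then 1 else 0) := sum_comm
      _ ≤ ∑ J ∈ powersetCard m (univ : Finset (Fin k)),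
            𝒢.card * (m.factorial * n ^ (k - m)) := by
          apply sum_le_sum
          intro J hJ
          rw [mem_powersetCard] at hJ
          rw [← card_filter]
          have h1 : Gd.filter (fun a => J.image a ∈ 𝒢) ⊆
              𝒢.biUnion (fun B => Gd.filter (fun a => J.image a = B)) := by
            intro a ha
            rw [mem_filter] at ha
            rw [mem_biUnion]
            exact ⟨J.image a, ha.2, mem_filter.2 ⟨ha.1, rfl⟩⟩
          refine (card_le_card h1).trans (card_biUnion_le_card_mul _ _ _ ?_)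
          intro B hB
          refine tf_count H B J _ ?_ m hJ.2 (h𝒢 B hB)
          intro a ha
          rw [mem_filter] at ha
          exact ⟨(hGd a ha.1).1, (hGd a ha.1).2, ha.2⟩
      _ = _ := by
          rw [sum_const, card_powersetCard, card_univ, Fintype.card_fin, smul_eq_mul]
  have hkm0 : (0 : ℝ) < (k.choose m : ℝ) := by exact_mod_cast Nat.choose_pos hmk
  have hmain : (Gd.card : ℝ) * (β * (k.choose m : ℝ)) ≤
      (k.choose m : ℝ) * ((𝒢.card : ℝ) * ((m.factorial : ℝ) * (n : ℝ) ^ (k - m))) := by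
    calc (Gd.card : ℝ) * (β * (k.choose m : ℝ)) = ∑ a ∈ Gd, β * (k.choose m : ℝ) := by
          rw [sum_const, nsmul_eq_mul]
      _ ≤ ∑ a ∈ Gd, (((powersetCard m (univ : Finset (Fin k))).filter
            (fun J => J.image a ∈ 𝒢)).card : ℝ) := sum_le_sum hlow
      _ ≤ _ := by exact_mod_cast hup
  have hmain2 : (Gd.card : ℝ) * β ≤ (𝒢.card : ℝ) * ((m.factorial : ℝ) * (n : ℝ) ^ (k - m)) := by
    have h1 : (Gd.card : ℝ) * β * (k.choose m : ℝ) ≤
        (𝒢.card : ℝ) * ((m.factorial : ℝ) * (n : ℝ) ^ (k - m)) * (k.choose m : ℝ) := by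
      linarith
    exact le_of_mul_le_mul_right h1 hkm0
  have hnk : (0 : ℝ) < (n : ℝ) ^ k := by positivity
  have hnm : (0 : ℝ) < (n : ℝ) ^ m := by positivity
  have hpow3 : (n : ℝ) ^ (k - m) = (n : ℝ) ^ k / (n : ℝ) ^ m := by
    rw [eq_div_iff hnm.ne', ← pow_add]
    congr 1
    omega
  have hfac : (0 : ℝ) < (m.factorial : ℝ) := by exact_mod_cast m.factorial_pos
  have h6 : (1 - θ) * β * (n : ℝ) ^ m / (m.factorial : ℝ) ≤ (𝒢.card : ℝ) := by
    rw [div_le_iff₀ hfac]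
    have h7 : (1 - θ) * (n : ℝ) ^ k * β ≤
        (𝒢.card : ℝ) * ((m.factorial : ℝ) * ((n : ℝ) ^ k / (n : ℝ) ^ m)) := by
      rw [← hpow3]
      exact le_trans (mul_le_mul_of_nonneg_right hcard hβ) hmain2
    have h8 : (𝒢.card : ℝ) * ((m.factorial : ℝ) * ((n : ℝ) ^ k / (n : ℝ) ^ m)) =
        ((𝒢.card : ℝ) * (m.factorial : ℝ)) * (n : ℝ) ^ k / (n : ℝ) ^ m := by ring
    rw [h8, le_div_iff₀ hnm] at h7
    have h9 : ((1 - θ) * β * (n : ℝ) ^ m) * (n : ℝ) ^ k ≤
        ((𝒢.card : ℝ) * (m.factorial : ℝ)) * (n : ℝ) ^ k := by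
      linarith
    exact le_of_mul_le_mul_right h9 hnk
  have h10 : ((n.choose m : ℕ) : ℝ) ≤ (n : ℝ) ^ m / (m.factorial : ℝ) := Nat.choose_le_pow_div m n
  refine le_trans ?_ h6
  rw [mul_div_assoc]
  exact mul_le_mul_of_nonneg_left h10 (mul_nonneg (by linarith) hβ)

theorem ab_param (r m : ℕ) (hr : 1 ≤ r) (hm : 1 ≤ m) (κ ε : ℝ) (hκ : 0 < κ) (hκ1 : κ ≤ 1)
    (hε : 0 < ε) (hε1 : ε < 1) :
    ∃ (k0 : ℕ) (η : ℝ), 0 < η ∧ η ≤ κ / 2 ∧ ∀ k : ℕ, k0 ≤ k → 1 ≤ k ∧ m ≤ k ∧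
      0 < (κ - η) / r ∧ (κ - η) / r ≤ 1 ∧ (m : ℝ) ≤ (κ - η) / r * k ∧
      (1 - ε / 4) * (κ / r) ^ (m - 1) ≤
        ((κ - η) / r) ^ (m - 1) * (1 - m / ((κ - η) / r * k)) ^ m := by
  have hrR : (1 : ℝ) ≤ r := by exact_mod_cast hr
  have hmR : (1 : ℝ) ≤ m := by exact_mod_cast hm
  have hr0 : (0 : ℝ) < r := by linarith
  have hm0 : (0 : ℝ) < m := by linarith
  obtain ⟨η, hη⟩ : ∃ η : ℝ, η = κ * ε / (8 * m) := ⟨_, rfl⟩
  have hη0 : 0 < η := by rw [hη]; positivity
  have hη1 : η ≤ κ / 2 := by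
    rw [hη, div_le_div_iff₀ (by positivity) (by norm_num)]
    nlinarith
  refine ⟨⌈16 * (r : ℝ) * m ^ 2 / (κ * ε)⌉₊, η, hη0, hη1, fun k hk => ?_⟩
  have hkR : 16 * (r : ℝ) * m ^ 2 / (κ * ε) ≤ k :=
    (Nat.le_ceil _).trans (by exact_mod_cast hk)
  have hkpos : (0 : ℝ) < k := lt_of_lt_of_le (by positivity) hkR
  obtain ⟨lam, hlam⟩ : ∃ lam : ℝ, lam = (κ - η) / r := ⟨_, rfl⟩
  have hlam8 : κ / (2 * r) ≤ lam := by
    rw [hlam, div_le_div_iff₀ (by positivity) hr0]
    nlinarith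
  have hlam0 : 0 < lam := lt_of_lt_of_le (by positivity) hlam8
  have hlam1 : lam ≤ 1 := by
    rw [hlam, div_le_iff₀ hr0]
    linarith
  have hlk : 8 * (m : ℝ) ^ 2 / ε ≤ lam * k := by
    calc 8 * (m : ℝ) ^ 2 / ε = κ / (2 * r) * (16 * (r : ℝ) * m ^ 2 / (κ * ε)) := by
          field_simp
          norm_num
      _ ≤ lam * k := by gcongr
  have hlk0 : 0 < lam * k := by positivity
  have hmm : (m : ℝ) / (lam * k) ≤ ε / (8 * m) := by
    rw [div_le_div_iff₀ hlk0 (by positivity)]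
    rw [div_le_iff₀ hε] at hlk
    nlinarith
  have hm8 : (m : ℝ) ≤ lam * k := by
    refine le_trans ?_ hlk
    rw [le_div_iff₀ hε]
    nlinarith
  have hmkN : m ≤ k := by
    have h1 : (m : ℝ) ≤ k := by nlinarith
    exact_mod_cast h1
  rw [← hlam]
  refine ⟨by omega, hmkN, hlam0, hlam1, hm8, ?_⟩
  have e1 : lam ^ (m - 1) = (κ / r) ^ (m - 1) * (1 - ε / (8 * m)) ^ (m - 1) := by
    rw [← mul_pow]
    congr 1
    rw [hlam, hη]
    field_simp
  have hε8 : ε / (8 * m) ≤ 1 := by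
    rw [div_le_one (by positivity)]
    nlinarith
  have e2 : 1 - ε / 8 ≤ (1 - ε / (8 * m)) ^ (m - 1) := by
    have h1 := one_add_mul_le_pow (show (-2 : ℝ) ≤ -(ε / (8 * m)) by linarith) (m - 1)
    have h2 : (((m - 1 : ℕ) : ℝ)) = m - 1 := by
      rw [Nat.cast_sub hm]
      norm_num
    rw [h2] at h1
    have h3 : (1 : ℝ) + -(ε / (8 * m)) = 1 - ε / (8 * m) := by ring
    rw [h3] at h1
    have h4 : ((m : ℝ) - 1) * (ε / (8 * m)) ≤ ε / 8 := by
      have h5 : (m : ℝ) * (ε / (8 * m)) = ε / 8 := by field_simp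
      have h6 : 0 ≤ ε / (8 * m) := by positivity
      nlinarith
    linarith
  have e3 : 1 - ε / 8 ≤ (1 - (m : ℝ) / (lam * k)) ^ m := by
    have h0 : (m : ℝ) / (lam * k) ≤ 1 := by
      rw [div_le_one hlk0]
      exact hm8
    have h1 := one_add_mul_le_pow (show (-2 : ℝ) ≤ -((m : ℝ) / (lam * k)) by linarith) m
    have h3 : (1 : ℝ) + -((m : ℝ) / (lam * k)) = 1 - (m : ℝ) / (lam * k) := by ring
    rw [h3] at h1
    have h4 : (m : ℝ) * ((m : ℝ) / (lam * k)) ≤ ε / 8 := by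
      calc (m : ℝ) * ((m : ℝ) / (lam * k)) ≤ m * (ε / (8 * m)) := by gcongr
        _ = ε / 8 := by field_simp
    linarith
  rw [e1]
  have h5 : 1 - ε / 4 ≤ (1 - ε / (8 * m)) ^ (m - 1) * (1 - (m : ℝ) / (lam * k)) ^ m := by
    calc 1 - ε / 4 ≤ (1 - ε / 8) * (1 - ε / 8) := by nlinarith
      _ ≤ _ := by
        apply mul_le_mul e2 e3 (by linarith)
        exact le_trans (by linarith) e2
  have h6 : 0 ≤ (κ / r) ^ (m - 1) := by positivity
  calc (1 - ε / 4) * (κ / r) ^ (m - 1)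
      ≤ ((1 - ε / (8 * m)) ^ (m - 1) * (1 - (m : ℝ) / (lam * k)) ^ m) * (κ / r) ^ (m - 1) :=
        mul_le_mul_of_nonneg_right h5 h6
    _ = _ := by ring

open Classical in
/-- abstract form: many good `m`-subsets -/
theorem ab_many (r m : ℕ) (hr : 1 ≤ r) (hm : 1 ≤ m) (κ ε : ℝ) (hκ : 0 < κ) (hκ1 : κ ≤ 1)
    (hε : 0 < ε) (hε1 : ε < 1) :
    ∃ (k0 : ℕ) (η : ℝ), 0 < η ∧ η ≤ κ / 2 ∧ ∀ k : ℕ, k0 ≤ k → ∃ K : ℕ, ∀ H : Finset ℕ,
      K ≤ H.card → ∀ 𝒞 : Fin r → Finset ℕ → Prop,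
      (∀ i (X Y : Finset ℕ), X ⊆ Y → 𝒞 i Y → 𝒞 i X) →
      (((Fintype.piFinset (fun _ : Fin k => H)).filter
        (fun a => ¬ Cov ((κ - η) / r) 𝒞 a)).card : ℝ) ≤ ε / 8 * (H.card : ℝ) ^ k →
      (1 - ε) * (κ / r) ^ (m - 1) * (H.card.choose m : ℝ) ≤
        (((powersetCard m H).filter (fun B => ∃ i, 𝒞 i B)).card : ℝ) := by
  obtain ⟨k0, η, hη0, hη1, hpar⟩ := ab_param r m hr hm κ ε hκ hκ1 hε hε1
  refine ⟨k0, η, hη0, hη1, fun k hk => ?_⟩
  obtain ⟨hk1, hmk, hlam0, hlam1, hmlk, hkap⟩ := hpar k hk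
  refine ⟨⌈(k : ℝ) ^ 2 * 8 / ε⌉₊ + 1, fun H hH 𝒞 h𝒞 hbad => ?_⟩
  have hn1 : 1 ≤ H.card := by omega
  have hnk : (k : ℝ) ^ 2 ≤ ε / 8 * H.card := by
    have h1 : (k : ℝ) ^ 2 * 8 / ε ≤ H.card :=
      (Nat.le_ceil _).trans (by exact_mod_cast (by omega : ⌈(k : ℝ) ^ 2 * 8 / ε⌉₊ ≤ H.card))
    rw [div_le_iff₀ hε] at h1
    linarith
  obtain ⟨β, hβ⟩ : ∃ β : ℝ, β = ((κ - η) / r) ^ (m - 1) * (1 - m / ((κ - η) / r * k)) ^ m :=
    ⟨_, rfl⟩
  have hβ1 : (1 - ε / 4) * (κ / r) ^ (m - 1) ≤ β := by rw [hβ]; exact hkap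
  have hκr : 0 ≤ (κ / r) ^ (m - 1) := by positivity
  have hβ0 : 0 ≤ β := le_trans (mul_nonneg (by linarith) hκr) hβ1
  have h1 := gd_low hk1 H (fun a => Cov ((κ - η) / r) 𝒞 a) (ε / 8) hbad hn1 hnk
  have h2 := transfer hmk H hn1 ((powersetCard m H).filter (fun B => ∃ i, 𝒞 i B))
    (fun B hB => (mem_powersetCard.1 (mem_filter.1 hB).1).2)
    ((Fintype.piFinset (fun _ : Fin k => H)).filter
      (fun a => Cov ((κ - η) / r) 𝒞 a ∧ Function.Injective a))
    (fun a ha => by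
      rw [mem_filter, Fintype.mem_piFinset] at ha
      exact ⟨ha.2.2, ha.1⟩) β (2 * (ε / 8)) hβ0 (by linarith) (by
      intro a ha
      rw [mem_filter, Fintype.mem_piFinset] at ha
      obtain ⟨haH, ⟨w, hw0, hw1, hw2, hw3⟩, hinj⟩ := ha
      have h3 := fam_count r k m hm ((κ - η) / r) hlam0 w hw0 hw1 hw2
        (univ.filter (fun J => J.image a ∈ (powersetCard m H).filter (fun B => ∃ i, 𝒞 i B)))
        (by
          intro i E hE J hJE hJm
          rw [mem_filter]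
          refine ⟨mem_univ _, ?_⟩
          rw [mem_filter, mem_powersetCard]
          refine ⟨⟨?_, ?_⟩, i, h𝒞 i _ _ (image_subset_image hJE) (hw3 i E hE)⟩
          · intro x hx
            rw [mem_image] at hx
            obtain ⟨j, _, rfl⟩ := hx
            exact haH j
          · rw [card_image_of_injective _ hinj, hJm]) hmlk
      rw [← hβ] at h3
      refine h3.trans ?_
      have h4 : (univ.filter (fun J : Finset (Fin k) =>
            J.image a ∈ (powersetCard m H).filter (fun B => ∃ i, 𝒞 i B))).filter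
            (fun J => J.card = m) ⊆
          (powersetCard m (univ : Finset (Fin k))).filter
            (fun J => J.image a ∈ (powersetCard m H).filter (fun B => ∃ i, 𝒞 i B)) := by
        intro J hJ
        rw [mem_filter, mem_filter] at hJ
        rw [mem_filter, mem_powersetCard]
        exact ⟨⟨subset_univ _, hJ.2⟩, hJ.1.2⟩
      exact_mod_cast card_le_card h4) h1
  refine le_trans ?_ h2
  apply mul_le_mul_of_nonneg_right _ (Nat.cast_nonneg _)
  calc (1 - ε) * (κ / r) ^ (m - 1)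
      ≤ ((1 - 2 * (ε / 8)) * (1 - ε / 4)) * (κ / r) ^ (m - 1) := by
        apply mul_le_mul_of_nonneg_right _ hκr
        nlinarith
    _ = (1 - 2 * (ε / 8)) * ((1 - ε / 4) * (κ / r) ^ (m - 1)) := by ring
    _ ≤ _ := mul_le_mul_of_nonneg_left hβ1 (by linarith)

end Pool.Agent.H21.LA
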